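import Pool.Agent.H841.GP.Inv
import Pool.Agent.H841.MS.Geo

/-!
# The invariant tensors are generated in degrees two and four and by the relations of the blocks
-/

set_option linter.unusedSectionVars false

namespace Pool.Agent.H841.GP

open Finset Matrix Module Pool.Agent.W437.HC Pool.Agent.H841.MS
open Pool.Agent.V1168.GH hiding cj sw ctr
open Pool.Agent.N634.GHC (card_two)
open Equiv (Perm)

noncomputable section

variable {I J : Type} {B : Type} [Fintype B] [DecidableEq B]
  {S : J → I → Prop} {ρ : I → Matrix (Fin 2) (Fin 2) ℂ →ₗ[ℂ] Matrix B B ℂ} {p : J → Matrix B B ℂ}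
  {L : Submodule ℂ (Matrix B B ℂ)} {Om : Matrix B B ℂ}
  {κ : Type} [Fintype κ] [DecidableEq κ] {c : κ → J}

/-- A tensor which is invariant under the `i`-th factor has an even number of slots in the blocks on
which this factor acts. -/
theorem PH.even (h : PH S ρ p) (i : I) {v : Tn κ B} (hv : v ∈ Cl p c) (hne : v ≠ 0)
    (h0 : ∀ X, Matrix.trace X = 0 → (ac (ρ i X) : OpT κ B) v = 0) [DecidablePred fun k => S (c k) i] :
    Even (Finset.univ.filter fun k => S (c k) i).card := by
  let K : Finset κ := Finset.univ.filter fun k => S (c k) i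
  have hKm : ∀ k, k ∈ K ↔ S (c k) i := fun k => by
    rw [Finset.mem_filter]
    exact ⟨fun h => h.2, fun h => ⟨Finset.mem_univ k, h⟩⟩
  let Y : Matrix (Fin 2) (Fin 2) ℂ := !![1, 0; 0, -1]
  have hY : Y.trace = 0 := by
    rw [Matrix.trace_fin_two]
    simp [Y]
  have hY0 : Y * mu 0 0 = mu 0 0 := by
    ext x y
    fin_cases x <;> fin_cases y <;> simp [Y, Matrix.mul_apply, Fin.sum_univ_two]
  have hY1 : Y * mu 1 1 = -mu 1 1 := by
    ext x y
    fin_cases x <;> fin_cases y <;> simp [Y, Matrix.mul_apply, Fin.sum_univ_two]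
  have key : ∀ T : Finset κ, T ⊆ K → ∃ (x : κ → B → ℂ) (ε : κ → ℤ), evalF v x ≠ 0 ∧
      (∀ k, ε k = 1 ∨ ε k = -1) ∧ ∀ k ∈ T, ρ i Y *ᵥ x k = (ε k : ℂ) • x k := by
    intro T
    induction T using Finset.induction_on with
    | empty =>
      intro _
      have h1 : ∃ x, evalF v x ≠ 0 := by
        by_contra hcon
        push Not at hcon
        exact hne (eq_zero_of_evalF hcon)
      obtain ⟨x, hx⟩ := h1
      exact ⟨x, fun _ => 1, hx, fun _ => Or.inl rfl, fun k hk => absurd hk (Finset.notMem_empty k)⟩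
    | insert n T hn ih =>
      intro hT
      obtain ⟨x, ε, hx, hε, hxε⟩ := ih fun k hk => hT (Finset.mem_insert_of_mem hk)
      have hnS : S (c n) i := (hKm n).1 (hT (Finset.mem_insert_self n T))
      have h1 : evalF v x = evalF v (Function.update x n (ρ i (mu 0 0) *ᵥ x n)) +
          evalF v (Function.update x n (ρ i (mu 1 1) *ᵥ x n)) := by
        have e1 : (1 : Matrix (Fin 2) (Fin 2) ℂ) = mu 0 0 + mu 1 1 := by
          rw [one_eq_mu, Fin.sum_univ_two]
        have e2 := h.rs_one hnS hv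
        rw [e1, rs_add, LinearMap.add_apply] at e2
        conv_lhs => rw [← e2]
        rw [evalF_add, evalF_sl, evalF_sl]
      have h2 : ∀ (a : Fin 2) (e : ℤ), (e = 1 ∨ e = -1) → Y * mu a a = (e : ℂ) • mu a a →
          evalF v (Function.update x n (ρ i (mu a a) *ᵥ x n)) ≠ 0 →
          ∃ (x : κ → B → ℂ) (ε : κ → ℤ), evalF v x ≠ 0 ∧ (∀ k, ε k = 1 ∨ ε k = -1) ∧
            ∀ k ∈ insert n T, ρ i Y *ᵥ x k = (ε k : ℂ) • x k := by
        intro a e he hYa hne'
        refine ⟨Function.update x n (ρ i (mu a a) *ᵥ x n), Function.update ε n e, hne', fun k => ?_,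
          fun k hk => ?_⟩
        · by_cases hkn : k = n
          · subst hkn
            rw [Function.update_self]
            exact he
          · rw [Function.update_of_ne hkn]
            exact hε k
        · by_cases hkn : k = n
          · subst hkn
            rw [Function.update_self, Function.update_self, Matrix.mulVec_mulVec, ← h.mul, hYa,
              map_smul, Matrix.smul_mulVec]
          · rw [Function.update_of_ne hkn, Function.update_of_ne hkn]
            exact hxε k ((Finset.mem_insert.1 hk).resolve_left hkn)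
      by_cases h3 : evalF v (Function.update x n (ρ i (mu 0 0) *ᵥ x n)) = 0
      · refine h2 1 (-1) (Or.inr rfl) ?_ ?_
        · rw [hY1]
          push_cast
          rw [neg_one_smul]
        · intro h4
          rw [h3, h4, add_zero] at h1
          exact hx h1
      · refine h2 0 1 (Or.inl rfl) ?_ h3
        rw [hY0]
        push_cast
        rw [one_smul]
  obtain ⟨x, ε, hx, hε, hxε⟩ := key K subset_rfl
  have h1 : (∑ k ∈ K, (ε k : ℂ)) * evalF v x = 0 := by
    have e1 : evalF ((ac (ρ i Y) : OpT κ B) v) x = 0 := by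
      rw [h0 Y hY, evalF_zero]
    rw [ac_apply, evalF_act] at e1
    rw [← e1, Finset.sum_mul, ← Finset.sum_filter_add_sum_filter_not Finset.univ
      (fun k => S (c k) i) (fun k => evalF v (Function.update x k (ρ i Y *ᵥ x k)))]
    have e2 : ∑ k ∈ Finset.univ.filter (fun k => ¬ S (c k) i),
        evalF v (Function.update x k (ρ i Y *ᵥ x k)) = 0 := by
      refine Finset.sum_eq_zero fun k hk => ?_
      rw [← evalF_sl]
      have e3 := h.rs_zero (Finset.mem_filter.1 hk).2 hv Y
      unfold rs at e3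
      rw [e3, evalF_zero]
    rw [e2, add_zero]
    refine Finset.sum_congr rfl fun k hk => ?_
    rw [hxε k hk, evalF_update_smul, Function.update_eq_self]
  have h2 : ∑ k ∈ K, (ε k : ℂ) = 0 := (mul_eq_zero.1 h1).resolve_right hx
  have h3 : ∑ k ∈ K, ε k = 0 := by exact_mod_cast h2
  have h4 : Even (∑ k ∈ K, ε k + ∑ k ∈ K, 1) := by
    rw [← Finset.sum_add_distrib]
    refine Finset.even_sum _ fun k _ => ?_
    rcases hε k with h5 | h5 <;> rw [h5] <;> decide
  rw [h3, zero_add, Finset.sum_const, nsmul_eq_mul, mul_one] at h4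
  exact (Int.even_coe_nat _).1 h4

/-- Two slots of the same colour. -/
theorem pair_mem [Fintype I] [Fintype J] (h : PT L S ρ p) (F : Fam Om)
    (h2 : Ivl L (Fin 2) ≤ F.N (Fin 2))
    (hsw : ∀ (k l : κ), k ≠ l → ∀ i, ∀ u ∈ F.N κ, sw ρ i k l u ∈ F.N κ)
    {k₀ l₀ : κ} (hkl₀ : k₀ ≠ l₀) (hc : c k₀ = c l₀)
    (h3 : Ivl L {m // m ≠ k₀ ∧ m ≠ l₀} ≤ F.N {m // m ≠ k₀ ∧ m ≠ l₀}) {w : Tn κ B}
    (hw : w ∈ Ivl L κ) (hwc : w ∈ Cl p c) : w ∈ F.N κ := by
  classical
  by_contra hcon
  let U₁ : Submodule ℂ (Tn κ B) := Ivl L κ ⊓ Cl p c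
  have key : ∀ T : Finset I, (∀ i ∈ T, S (c k₀) i) → ∃ q : OpT κ B, Ok ρ p q ∧
      (∀ i', i' ∉ T → Fre ρ i' q) ∧ (∃ u ∈ U₁, q u ∉ F.N κ) ∧
      ∀ i ∈ T, ∀ v ∈ Cl p c, ∀ X, Matrix.trace X = 0 →
        (rs ρ i X k₀ + rs ρ i X l₀) (q v) = 0 := by
    intro T
    induction T using Finset.induction_on with
    | empty =>
      intro _
      exact ⟨1, Ok.one, fun i' _ => Fre.one i', ⟨w, ⟨hw, hwc⟩, hcon⟩,
        fun i hi => absurd hi (Finset.notMem_empty i)⟩
    | insert i T hiT ih =>
      intro hT'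
      obtain ⟨q, hq1, hq2, hq3, hq4⟩ := ih fun i' hi' => hT' i' (Finset.mem_insert_of_mem hi')
      have hik : S (c k₀) i := hT' i (Finset.mem_insert_self i T)
      have hil : S (c l₀) i := hc ▸ hik
      let K : Finset κ := Finset.univ.filter fun k => S (c k) i
      have hKm : ∀ k, k ∈ K ↔ S (c k) i := fun k => by
        rw [Finset.mem_filter]
        exact ⟨fun h => h.2, fun h => ⟨Finset.mem_univ k, h⟩⟩
      have hKc : ∀ k ∈ K, S (c k) i := fun k hk => (hKm k).1 hk
      have hSt : Sta ρ i K (F.N κ) := fun k _ l _ hkl v hv => hsw k l hkl i v hv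
      obtain ⟨e, he1, he2, he3, he4⟩ := h.toPH.exists_sym (c := c) i K hKc
      -- not symmetric modulo the family
      have h1 : ¬ ∀ k ∈ K, ∀ l ∈ K, k ≠ l → ∀ u ∈ U₁, sw ρ i k l (q u) - q u ∈ F.N κ := by
        intro h2'
        obtain ⟨u, hu, hu'⟩ := hq3
        apply hu'
        have h6 := he4 (F.N κ) hSt (q u) fun k hk l hl hkl => h2' k hk l hl hkl u hu
        have hqc : q u ∈ Cl p c := hq1.mem hu.2
        have hz : e (q u) = 0 := by
          refine h.toPH.sym_zero i hik (he1.mem hqc) (fun k l hk hl hkl => ?_) fun X hX => ?_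
          · exact he3 k ((hKm k).2 hk) l ((hKm l).2 hl) hkl _ hqc
          · have e1 : (ac (ρ i X) : OpT κ B) (e (q u)) = e (q (act (ρ i X) u)) := by
              rw [ac_apply, ← h.act he1 _ (h.mem i hX), ← h.act hq1 _ (h.mem i hX)]
            rw [e1, hu.1 _ (h.mem i hX), map_zero, map_zero]
        rw [hz, zero_sub] at h6
        have h7 := (F.N κ).neg_mem h6
        rwa [neg_neg] at h7
      push Not at h1
      obtain ⟨k, hk, l, hl, hkl, u, hu, hun⟩ := h1
      obtain ⟨π, π', g1, g2, g4, g5, g6⟩ := h.toPH.exists_move (c := c) i K hKc ((hKm k₀).2 hik)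
        ((hKm l₀).2 hil) hkl₀ hk hl hkl
      refine ⟨(1 - sw ρ i k₀ l₀) * (π * q), (Ok.one.sub (h.toPH.sw_ok i hkl₀)).mul (g1.mul hq1),
        fun i' hi' => ?_, ⟨u, hu, fun h2 => hun ?_⟩, fun i' hi' v hv X hX => ?_⟩
      · have hne' : i ≠ i' := by
          rintro rfl
          exact hi' (Finset.mem_insert_self i T)
        refine Fre.mul ((Fre.one i').sub (h.toPH.sw_fre hne' _ _)) ((g2 i' hne').mul (hq2 i' ?_))
        exact fun h3 => hi' (Finset.mem_insert_of_mem h3)
      · have hmem : q u ∈ Cl p c := hq1.mem hu.2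
        have e1 : ((1 - sw ρ i k₀ l₀) * (π * q)) u =
            π (q u) - sw ρ i k₀ l₀ (π (q u)) := rfl
        rw [e1] at h2
        have h3 := g4 (F.N κ) hSt _ h2
        rw [map_sub, g5 _ hmem, g6 _ hmem] at h3
        have h4 := (F.N κ).neg_mem h3
        rwa [neg_sub] at h4
      · rcases Finset.mem_insert.1 hi' with rfl | hi'
        · have hqv : (π * q) v ∈ Cl p c := (g1.mul hq1).mem hv
          have e1 := LinearMap.congr_fun (h.toPH.rs_anti i' hkl₀ X hX) ((π * q) v)
          have e0 : (rs ρ i' X k₀ * rs ρ i' 1 l₀ + rs ρ i' 1 k₀ * rs ρ i' X l₀) ((π * q) v) =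
              rs ρ i' X k₀ (rs ρ i' 1 l₀ ((π * q) v)) + rs ρ i' 1 k₀ (rs ρ i' X l₀ ((π * q) v)) := rfl
          rw [Module.End.mul_apply, e0] at e1
          have e3 : rs ρ i' 1 k₀ (rs ρ i' X l₀ ((π * q) v)) = rs ρ i' X l₀ ((π * q) v) := by
            rw [← Module.End.mul_apply, rs_comm_ne i' i' _ _ hkl₀, Module.End.mul_apply,
              h.toPH.rs_one hik hqv]
          rw [h.toPH.rs_one hil hqv, e3] at e1
          rw [Module.End.mul_apply, LinearMap.sub_apply, Module.End.one_apply, map_sub, e1,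
            LinearMap.add_apply, sub_self]
        · have hne' : i ≠ i' := by
            rintro rfl
            exact hiT hi'
          have e1 := h.toPH.sw_rs_ne hne' k₀ l₀ k₀ X
          have e2 := h.toPH.sw_rs_ne hne' k₀ l₀ l₀ X
          have e3 : (rs ρ i' X k₀ + rs ρ i' X l₀) * (1 - sw ρ i k₀ l₀) =
              (1 - sw ρ i k₀ l₀) * (rs ρ i' X k₀ + rs ρ i' X l₀) := by
            rw [mul_sub, sub_mul, mul_one, one_mul, mul_add, add_mul, e1, e2]
          have e4 : (rs ρ i' X k₀ + rs ρ i' X l₀) * π = π * (rs ρ i' X k₀ + rs ρ i' X l₀) := by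
            rw [mul_add, add_mul, g2 i' hne', g2 i' hne']
          have e5 : (rs ρ i' X k₀ + rs ρ i' X l₀) * ((1 - sw ρ i k₀ l₀) * (π * q)) =
              (1 - sw ρ i k₀ l₀) * (π * ((rs ρ i' X k₀ + rs ρ i' X l₀) * q)) := by
            rw [← mul_assoc, e3, mul_assoc, ← mul_assoc _ π, e4, mul_assoc]
          have e6 : (rs ρ i' X k₀ + rs ρ i' X l₀) (((1 - sw ρ i k₀ l₀) * (π * q)) v) =
              (1 - sw ρ i k₀ l₀) (π ((rs ρ i' X k₀ + rs ρ i' X l₀) (q v))) :=
            LinearMap.congr_fun e5 v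
          rw [hq4 i' hi' v hv X hX, map_zero, map_zero] at e6
          exact e6
  obtain ⟨q, hq1, -, ⟨u, hu, hu'⟩, hq4⟩ := key (Finset.univ.filter fun i => S (c k₀) i)
    fun i hi => (Finset.mem_filter.1 hi).2
  apply hu'
  refine slot_split (L := L) hkl₀ ?_ ?_ F h2 h3
  · intro X hX
    rw [← h.act hq1 X hX, hu.1 X hX, map_zero]
  · refine h.slots fun i X hX => ?_
    by_cases hi : S (c k₀) i
    · exact hq4 i (Finset.mem_filter.2 ⟨Finset.mem_univ i, hi⟩) u hu.2 X hX
    · have hv' : q u ∈ Cl p c := hq1.mem hu.2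
      rw [LinearMap.add_apply, h.toPH.rs_zero hi hv', h.toPH.rs_zero (hc ▸ hi) hv', add_zero]

/-- The operators of the commutant of the Lie algebra. -/
theorem sl_mem (hsp : ∀ X ∈ L, Xᵀ * Om + Om * X = 0) (hOm : Om * Om = -1) (hOmT : Omᵀ = -Om)
    (F : Fam Om) (h2 : Ivl L (Fin 2) ≤ F.N (Fin 2)) {E : Matrix B B ℂ}
    (hE : ∀ X ∈ L, E * X = X * E) (k : κ) {u : Tn κ B} (hu : u ∈ F.N κ) :
    sl E k u ∈ F.N κ := by
  have h1 := F.ctr _ (F.rnm (Equiv.swap (Sum.inl k) (Sum.inr 1)) _
    (F.prd _ _ hu (h2 (w2_Ivl hsp hE))))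
  have h3 : ctr Om (rnm (Equiv.swap (Sum.inl k) (Sum.inr 1)) (prd u (w2 (Om * E)))) = sl E k u := by
    funext x
    unfold ctr
    have e1 : ∀ a b : B, rnm (Equiv.swap (Sum.inl k) (Sum.inr 1)) (prd u (w2 (Om * E)))
        (Sum.elim x ![a, b] : κ ⊕ Fin 2 → B) =
        u (Function.update x k b) * (Om * E) a (x k) := by
      intro a b
      unfold rnm prd
      congr 1
      · congr 1
        funext m
        by_cases hm : m = k
        · subst hm
          simp
        · rw [Function.update_of_ne hm, Function.comp_apply, Function.comp_apply,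
            Equiv.swap_apply_of_ne_of_ne (by simp [hm]) (by simp)]
          rfl
    rw [sl_apply, Finset.sum_comm]
    refine Finset.sum_congr rfl fun b _ => ?_
    have e2 : ∀ a, Om a b * rnm (Equiv.swap (Sum.inl k) (Sum.inr 1)) (prd u (w2 (Om * E)))
        (Sum.elim x ![a, b] : κ ⊕ Fin 2 → B) =
        (Omᵀ b a * (Om * E) a (x k)) * u (Function.update x k b) := by
      intro a
      rw [e1, Matrix.transpose_apply]
      ring
    rw [Finset.sum_congr rfl fun a _ => e2 a, ← Finset.sum_mul, ← Matrix.mul_apply,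
      ← Matrix.mul_assoc, hOmT, Matrix.neg_mul, hOm, neg_neg, Matrix.one_mul]
  rwa [h3] at h1

/-- The projection to a colour pattern. -/
theorem Pc_mem_fam [Fintype J] (h : PT L S ρ p) (hsp : ∀ X ∈ L, Xᵀ * Om + Om * X = 0)
    (hOm : Om * Om = -1) (hOmT : Omᵀ = -Om) (F : Fam Om) (h2 : Ivl L (Fin 2) ≤ F.N (Fin 2))
    (c : κ → J) {u : Tn κ B} (hu : u ∈ F.N κ) : Pc p c u ∈ F.N κ := by
  have key : ∀ T : Finset κ, ∃ w ∈ F.N κ, ∀ x, evalF w x =
      evalF u (fun k => if k ∈ T then p (c k) *ᵥ x k else x k) := by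
    intro T
    induction T using Finset.induction_on with
    | empty =>
      refine ⟨u, hu, fun x => ?_⟩
      simp
    | insert n T hn ih =>
      obtain ⟨w, hw, hwx⟩ := ih
      refine ⟨sl (p (c n)) n w, sl_mem hsp hOm hOmT F h2 (h.p_comm (c n)) n hw, fun x => ?_⟩
      rw [evalF_sl, hwx]
      congr 1
      funext k
      by_cases hk : k = n
      · subst hk
        rw [if_neg hn, if_pos (Finset.mem_insert_self k T), Function.update_self]
      · rw [Function.update_of_ne hk]
        by_cases hkT : k ∈ T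
        · rw [if_pos hkT, if_pos (Finset.mem_insert_of_mem hkT)]
        · rw [if_neg hkT, if_neg fun h' => (Finset.mem_insert.1 h').elim hk hkT]
  obtain ⟨w, hw, hwx⟩ := key Finset.univ
  have h3 : Pc p c u = w := by
    refine ext_evalF fun x => ?_
    rw [evalF_Pc, hwx]
    congr 1
    funext k
    rw [if_pos (Finset.mem_univ k)]
  rw [h3]
  exact hw

theorem PT.Pc_Cl [Fintype J] (h : PT L S ρ p) (c : κ → J) (u : Tn κ B) : Pc p c u ∈ Cl p c := by
  intro m
  refine ext_evalF fun x => ?_
  rw [evalF_sl, evalF_Pc, evalF_Pc]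
  congr 1
  funext k
  by_cases hk : k = m
  · subst hk
    rw [Function.update_self, mulVec_mulVec, h.idem]
  · rw [Function.update_of_ne hk]

/-- All slots have different colours. -/
theorem distinct_mem [Fintype J] (h : PT L S ρ p) (hsp : ∀ X ∈ L, Xᵀ * Om + Om * X = 0)
    (hOm : Om * Om = -1) (hOmT : Omᵀ = -Om) (F : Fam Om) (h2 : Ivl L (Fin 2) ≤ F.N (Fin 2))
    (hc : Function.Injective c)
    (halt : ∀ t ∈ Ivl L κ, (∀ π : Perm κ, rnm π t = ((Perm.sign π : ℤ) : ℂ) • t) → t ∈ F.N κ)
    {w : Tn κ B} (hw : w ∈ Ivl L κ) (hwc : w ∈ Cl p c) : w ∈ F.N κ := by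
  let t : Tn κ B := ∑ π : Perm κ, ((Perm.sign π : ℤ) : ℂ) • rnm π w
  have ht : t ∈ F.N κ := by
    refine halt t (Submodule.sum_mem _ fun π _ => Submodule.smul_mem _ _ (rnm_Ivl π hw))
      fun σ => ?_
    change rnm σ (∑ π : Perm κ, ((Perm.sign π : ℤ) : ℂ) • rnm π w) = _
    have e1 : rnm σ (∑ π : Perm κ, ((Perm.sign π : ℤ) : ℂ) • rnm π w) =
        ∑ π : Perm κ, ((Perm.sign π : ℤ) : ℂ) • rnm (σ * π) w := by
      funext x
      unfold rnm
      rw [Finset.sum_apply, Finset.sum_apply]
      rfl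
    rw [e1, Finset.smul_sum, ← Equiv.sum_comp (Equiv.mulLeft σ)
      (fun π => ((Perm.sign σ : ℤ) : ℂ) • ((Perm.sign π : ℤ) : ℂ) • rnm π w)]
    refine Finset.sum_congr rfl fun π _ => ?_
    rw [Equiv.coe_mulLeft, Perm.sign_mul, smul_smul]
    congr 1
    push_cast
    rw [← mul_assoc, ← Int.cast_mul, ← Units.val_mul, Int.units_mul_self]
    norm_num
  have h3 : Pc p c t = w := by
    change Pc p c (∑ π : Perm κ, ((Perm.sign π : ℤ) : ℂ) • rnm π w) = w
    rw [map_sum, Finset.sum_eq_single 1]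
    · rw [Perm.sign_one, map_smul]
      have e2 : rnm (1 : Perm κ) w = w := rfl
      rw [e2]
      have e3 : Pc p c w = w := by
        have key : ∀ T : Finset κ, ∀ x, evalF w (fun k => if k ∈ T then p (c k) *ᵥ x k else x k) =
            evalF w x := by
          intro T
          induction T using Finset.induction_on with
          | empty => intro x; simp
          | insert n T hn ih =>
            intro x
            conv_rhs => rw [← hwc n, evalF_sl, ← ih]
            congr 1
            funext k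
            by_cases hk : k = n
            · subst hk
              rw [if_pos (Finset.mem_insert_self k T), Function.update_self, if_neg hn]
            · rw [Function.update_of_ne hk]
              by_cases hkT : k ∈ T
              · rw [if_pos hkT, if_pos (Finset.mem_insert_of_mem hkT)]
              · rw [if_neg hkT, if_neg fun h' => (Finset.mem_insert.1 h').elim hk hkT]
        refine ext_evalF fun x => ?_
        rw [evalF_Pc, ← key Finset.univ x]
        congr 1
        funext k
        rw [if_pos (Finset.mem_univ k)]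
      rw [e3]
      push_cast
      rw [one_smul]
    · intro π _ hπ
      obtain ⟨m, hm⟩ : ∃ m, π m ≠ m := by
        by_contra h0
        push Not at h0
        exact hπ (Equiv.ext h0)
      rw [map_smul]
      have e4 : Pc p c (rnm π w) = 0 := by
        refine ext_evalF fun x => ?_
        rw [evalF_Pc, evalF_zero, MS.evalF_rnm, ← hwc m, evalF_sl]
        refine MS.evalF_zero_arg _ _ m ?_
        rw [Function.update_self, Function.comp_apply, mulVec_mulVec, h.orth _ _ fun h0 =>
          hm (hc h0).symm, zero_mulVec]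
      rw [e4, smul_zero]
    · intro h0
      exact absurd (Finset.mem_univ _) h0
  rw [← h3]
  exact Pc_mem_fam h hsp hOm hOmT F h2 c ht

/-- **All invariant tensors of even degree.** -/
theorem inv_mem [Fintype I] [Fintype J] (h : PT L S ρ p) (hsp : ∀ X ∈ L, Xᵀ * Om + Om * X = 0)
    (hOm : Om * Om = -1) (hOmT : Omᵀ = -Om) (F : Fam Om) (h2 : Ivl L (Fin 2) ≤ F.N (Fin 2))
    (hanti : ∀ t ∈ Ivl L (Fin 2 ⊕ Fin 2), rnm (Equiv.swap (Sum.inl 0) (Sum.inl 1)) t = -t →
      rnm (Equiv.swap (Sum.inr 0) (Sum.inr 1)) t = -t → t ∈ F.N (Fin 2 ⊕ Fin 2))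
    (halt : ∀ N : Finset J, N.Nonempty → Even N.card →
      (∀ (i : I) (T : Finset J), (∀ j, j ∈ T ↔ j ∈ N ∧ S j i) → Even T.card) →
      ∀ (κ : Type) [Fintype κ] [DecidableEq κ], Fintype.card κ = N.card →
      ∀ t ∈ Ivl L κ, (∀ π : Perm κ, rnm π t = ((Perm.sign π : ℤ) : ℂ) • t) → t ∈ F.N κ) :
    ∀ (n : ℕ) (κ : Type) [Fintype κ] [DecidableEq κ], Fintype.card κ = n → Even n →
      Ivl L κ ≤ F.N κ := by
  classical
  intro n
  induction n using Nat.strong_induction_on with
  | _ n ih =>
  intro κ _ _ hn hev w hw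
  rw [← sum_Pc (p := p) h.sum w]
  refine Submodule.sum_mem _ fun c _ => ?_
  have hwc : Pc p c w ∈ Cl p c := h.Pc_Cl c w
  have hwi : Pc p c w ∈ Ivl L κ := fun X hX => by
    rw [← Pc_act (fun j => h.p_comm j X hX), hw X hX, map_zero]
  obtain ⟨u, hu⟩ : ∃ u, u = Pc p c w := ⟨_, rfl⟩
  rw [← hu] at hwc hwi ⊢
  by_cases hinj : Function.Injective c
  · by_cases hu0 : u = 0
    · rw [hu0]
      exact Submodule.zero_mem _
    · by_cases hn0 : n = 0
      · have : IsEmpty κ := Fintype.card_eq_zero_iff.1 (hn.trans hn0)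
        exact F.unit κ u
      · have hcard : (Finset.univ.image c).card = n := by
          rw [Finset.card_image_of_injective _ hinj, Finset.card_univ, hn]
        have hne : (Finset.univ.image c).Nonempty := Finset.card_pos.1 (by omega)
        refine distinct_mem h hsp hOm hOmT F h2 hinj (halt (Finset.univ.image c) hne
          (by rw [hcard]; exact hev) (fun i T hT => ?_) κ (by rw [hn, hcard])) hwi hwc
        have h3 := h.toPH.even i hwc hu0 fun X hX => by
          rw [ac_apply]
          exact hwi _ (h.mem i hX)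
        have h4 : T = (Finset.univ.filter fun k => S (c k) i).image c := by
          ext j
          rw [hT, Finset.mem_image, Finset.mem_image]
          constructor
          · rintro ⟨⟨k, -, rfl⟩, hk⟩
            exact ⟨k, Finset.mem_filter.2 ⟨Finset.mem_univ k, hk⟩, rfl⟩
          · rintro ⟨k, hk, rfl⟩
            exact ⟨⟨k, Finset.mem_univ k, rfl⟩, (Finset.mem_filter.1 hk).2⟩
        rw [h4, Finset.card_image_of_injective _ hinj]
        exact h3
  · rw [Function.Injective] at hinj
    push Not at hinj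
    obtain ⟨k₀, l₀, hc, hkl⟩ := hinj
    have h5 := card_two hkl
    refine pair_mem h F h2 (fun k l hkl i u hu => sw_mem' h hsp hOm hOmT F h2 hanti hkl i hu) hkl hc
      (ih (Fintype.card {m // m ≠ k₀ ∧ m ≠ l₀}) (by omega) _ rfl ?_) hwi hwc
    rw [← hn, ← h5, Nat.even_add] at hev
    exact hev.2 (by decide)

end

end Pool.Agent.H841.GP
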