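import Mathlib

/-!
# Polarization of symmetric multilinear maps
-/

namespace Pool.Agent.H841.GP

open Finset Equiv

theorem polar {κ M W : Type*} [Fintype κ] [DecidableEq κ] [AddCommGroup M] [AddCommGroup W]
    [Module ℂ W] (G : MultilinearMap ℤ (fun _ : κ => M) W)
    (hsym : ∀ (π : Perm κ) (R : κ → M), G (fun k => R (π k)) = G R) (N : Submodule ℂ W)
    (hN : ∀ x : M, G (fun _ => x) ∈ N) (R : κ → M) : G R ∈ N := by
  classical
  have h1 : ∀ W' : Finset κ, G (fun _ => ∑ j ∈ W'ᶜ, R j) =
      ∑ c : κ → κ, if (∀ k, c k ∈ W'ᶜ) then G (fun k => R (c k)) else 0 := by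
    intro W'
    rw [G.map_sum_finset (fun _ j => R j) (fun _ => W'ᶜ), ← Finset.sum_filter]
    refine Finset.sum_congr ?_ fun c _ => rfl
    ext c
    rw [Fintype.mem_piFinset, Finset.mem_filter]
    exact ⟨fun h => ⟨Finset.mem_univ c, h⟩, fun h => h.2⟩
  have h2 : ∑ W' : Finset κ, ((-1 : ℤ) ^ W'.card) • G (fun _ => ∑ j ∈ W'ᶜ, R j) =
      (Fintype.card (Perm κ) : ℤ) • G R := by
    have e1 : ∀ W' : Finset κ, ((-1 : ℤ) ^ W'.card) • G (fun _ => ∑ j ∈ W'ᶜ, R j) =
        ∑ c : κ → κ, (if (∀ k, c k ∈ W'ᶜ) then ((-1 : ℤ) ^ W'.card) else 0) •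
          G (fun k => R (c k)) := by
      intro W'
      rw [h1, Finset.smul_sum]
      refine Finset.sum_congr rfl fun c _ => ?_
      by_cases hc : ∀ k, c k ∈ W'ᶜ
      · rw [if_pos hc, if_pos hc]
      · rw [if_neg hc, if_neg hc, smul_zero, zero_smul]
    rw [Finset.sum_congr rfl fun W' _ => e1 W', Finset.sum_comm]
    have e2 : ∀ c : κ → κ, ∑ W' : Finset κ, (if (∀ k, c k ∈ W'ᶜ) then ((-1 : ℤ) ^ W'.card) else 0) •
        G (fun k => R (c k)) = if Function.Bijective c then G (fun k => R (c k)) else 0 := by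
      intro c
      rw [← Finset.sum_smul]
      have e3 : ∑ W' : Finset κ, (if (∀ k, c k ∈ W'ᶜ) then ((-1 : ℤ) ^ W'.card) else 0) =
          ∑ W' ∈ ((Finset.univ.image c)ᶜ).powerset, ((-1 : ℤ) ^ W'.card) := by
        rw [← Finset.sum_filter]
        refine Finset.sum_congr ?_ fun _ _ => rfl
        ext W'
        rw [Finset.mem_filter, Finset.mem_powerset]
        constructor
        · rintro ⟨-, h⟩ j hj
          rw [Finset.mem_compl, Finset.mem_image]
          rintro ⟨k, -, rfl⟩
          exact Finset.mem_compl.1 (h k) hj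
        · intro h
          refine ⟨Finset.mem_univ _, fun k => Finset.mem_compl.2 fun hk => ?_⟩
          exact Finset.mem_compl.1 (h hk) (Finset.mem_image_of_mem c (Finset.mem_univ k))
      rw [e3, Finset.sum_powerset_neg_one_pow_card]
      by_cases hc : Function.Bijective c
      · have e4 : (Finset.univ.image c)ᶜ = ∅ := by
          rw [Finset.compl_eq_empty_iff, Finset.eq_univ_iff_forall]
          intro j
          obtain ⟨k, hk⟩ := hc.2 j
          exact Finset.mem_image.2 ⟨k, Finset.mem_univ k, hk⟩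
        rw [if_pos e4, if_pos hc, one_smul]
      · have e4 : ¬ (Finset.univ.image c)ᶜ = ∅ := by
          intro h
          apply hc
          rw [Finset.compl_eq_empty_iff, Finset.eq_univ_iff_forall] at h
          refine Finite.injective_iff_bijective.1 (Finite.injective_iff_surjective.2 fun j => ?_)
          obtain ⟨k, -, hk⟩ := Finset.mem_image.1 (h j)
          exact ⟨k, hk⟩
        rw [if_neg e4, if_neg hc, zero_smul]
    rw [Finset.sum_congr rfl fun c _ => e2 c, ← Finset.sum_filter]
    have e5 : Finset.univ.filter (fun c : κ → κ => Function.Bijective c) =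
        Finset.univ.image fun π : Perm κ => (π : κ → κ) := by
      ext c
      rw [Finset.mem_filter, Finset.mem_image]
      constructor
      · rintro ⟨-, hc⟩
        exact ⟨Equiv.ofBijective c hc, Finset.mem_univ _, rfl⟩
      · rintro ⟨π, -, rfl⟩
        exact ⟨Finset.mem_univ _, π.bijective⟩
    rw [e5, Finset.sum_image fun π _ π' _ h => DFunLike.coe_injective h,
      Finset.sum_congr rfl fun π _ => hsym π R, Finset.sum_const, Finset.card_univ,
      natCast_zsmul]
  have h3 : ((Fintype.card (Perm κ) : ℤ) • G R) ∈ N := by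
    rw [← h2]
    exact N.sum_mem fun W' _ => N.toAddSubgroup.zsmul_mem (hN _) _
  have h4 : G R = ((Fintype.card (Perm κ) : ℂ))⁻¹ • ((Fintype.card (Perm κ) : ℤ) • G R) := by
    rw [natCast_zsmul, ← Nat.cast_smul_eq_nsmul ℂ, smul_smul, inv_mul_cancel₀, one_smul]
    exact_mod_cast Fintype.card_ne_zero
  rw [h4]
  exact N.smul_mem _ h3

end Pool.Agent.H841.GP
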