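import Pool.Agent.H841.GP.Step

/-!
# The invariant tensors of a Lie algebra of type A_1, general patterns
-/

set_option linter.unusedSectionVars false

namespace Pool.Agent.H841.GP

open Finset Matrix Module Pool.Agent.W437.HC Pool.Agent.H841.MS
open Pool.Agent.V1168.GH hiding cj sw
open Pool.Agent.N634.GHC (card_two WW tensor_inv single_eq act_WW)

noncomputable section

variable {I J : Type} {B : Type} [Fintype B] [DecidableEq B]
  {S : J → I → Prop} {ρ : I → Matrix (Fin 2) (Fin 2) ℂ →ₗ[ℂ] Matrix B B ℂ} {p : J → Matrix B B ℂ}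
  {L : Submodule ℂ (Matrix B B ℂ)} {Om : Matrix B B ℂ}

/-- The invariant tensors. -/
def Ivl (L : Submodule ℂ (Matrix B B ℂ)) (κ : Type) [Fintype κ] [DecidableEq κ] :
    Submodule ℂ (Tn κ B) where
  carrier := {u | ∀ X ∈ L, act X u = 0}
  zero_mem' := fun X _ => act_zero_right X
  add_mem' := by
    intro a b ha hb X hX
    rw [act_add_right, ha X hX, hb X hX, add_zero]
  smul_mem' := by
    intro r a ha X hX
    rw [act_smul_right, ha X hX, smul_zero]

/-- The Lie algebra `L` is the sum of the Lie algebras `ρ i (sl_2)`. -/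
structure PT (L : Submodule ℂ (Matrix B B ℂ)) (S : J → I → Prop)
    (ρ : I → Matrix (Fin 2) (Fin 2) ℂ →ₗ[ℂ] Matrix B B ℂ) (p : J → Matrix B B ℂ) [Fintype J] :
    Prop extends PH S ρ p where
  sum : ∑ j, p j = 1
  lie : L = Submodule.span ℂ {M | ∃ i X, Matrix.trace X = 0 ∧ M = ρ i X}

theorem PT.mem [Fintype J] (h : PT L S ρ p) (i : I) {X : Matrix (Fin 2) (Fin 2) ℂ}
    (hX : X.trace = 0) : ρ i X ∈ L := by
  rw [h.lie]
  exact Submodule.subset_span ⟨i, X, hX, rfl⟩

theorem PT.ind [Fintype J] (h : PT L S ρ p) {P : Matrix B B ℂ → Prop}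
    (h0 : P 0) (h1 : ∀ i X, Matrix.trace X = 0 → P (ρ i X)) (h2 : ∀ X Y, P X → P Y → P (X + Y))
    (h3 : ∀ (a : ℂ) X, P X → P (a • X)) : ∀ X ∈ L, P X := by
  intro X hX
  rw [h.lie] at hX
  induction hX using Submodule.span_induction with
  | mem X hX =>
    obtain ⟨i, Y, hY, rfl⟩ := hX
    exact h1 i Y hY
  | zero => exact h0
  | add X Y _ _ hX hY => exact h2 X Y hX hY
  | smul a X _ hX => exact h3 a X hX

/-- The blocks are preserved. -/
theorem PT.p_comm [Fintype J] (h : PT L S ρ p) (j : J) : ∀ X ∈ L, p j * X = X * p j := by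
  refine h.ind (by rw [Matrix.mul_zero, Matrix.zero_mul]) (fun i X _ => (h.comm_p i j X).symm)
    (fun X Y hX hY => by rw [Matrix.mul_add, Matrix.add_mul, hX, hY]) fun a X hX => ?_
  rw [Matrix.mul_smul, Matrix.smul_mul, hX]

theorem PT.one_comm [Fintype J] (h : PT L S ρ p) (i : I) : ∀ X ∈ L, ρ i 1 * X = X * ρ i 1 := by
  refine h.ind (by rw [Matrix.mul_zero, Matrix.zero_mul]) (fun i' X _ => ?_)
    (fun X Y hX hY => by rw [Matrix.mul_add, Matrix.add_mul, hX, hY]) fun a X hX => ?_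
  · by_cases hi : i = i'
    · subst hi
      rw [← h.mul, ← h.mul, one_mul, mul_one]
    · exact h.comm i i' hi _ _
  · rw [Matrix.mul_smul, Matrix.smul_mul, hX]

theorem PT.act [Fintype J] (h : PT L S ρ p) {κ : Type} [Fintype κ] [DecidableEq κ] {a : OpT κ B}
    (ha : Ok ρ p a) : ∀ X ∈ L, ∀ u, a (W437.HC.act X u) = W437.HC.act X (a u) := by
  refine h.ind (fun u => ?_) (fun i X _ u => ?_) (fun X Y hX hY u => ?_) fun z X hX u => ?_
  · rw [act_zero_left, act_zero_left, map_zero]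
  · rw [← ac_apply, ← ac_apply]
    exact LinearMap.congr_fun (ha.ac i X) u
  · rw [act_add_left, act_add_left, map_add, hX, hY]
  · rw [act_smul_left, act_smul_left, map_smul, hX]

theorem PT.slots [Fintype J] (h : PT L S ρ p) {κ : Type} [Fintype κ] [DecidableEq κ] {k l : κ}
    {w : Tn κ B} (hw : ∀ i X, Matrix.trace X = 0 → (rs ρ i X k + rs ρ i X l) w = 0) :
    ∀ X ∈ L, (sl X k + sl X l : OpT κ B) w = 0 := by
  refine h.ind ?_ (fun i X hX => hw i X hX) (fun X Y hX hY => ?_) fun z X hX => ?_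
  · rw [sl_zero, sl_zero, add_zero, LinearMap.zero_apply]
  · rw [sl_add, sl_add]
    have e1 : (sl X k + sl Y k + (sl X l + sl Y l) : OpT κ B) =
        (sl X k + sl X l) + (sl Y k + sl Y l) := by abel
    rw [e1, LinearMap.add_apply, hX, hY, add_zero]
  · rw [sl_smul, sl_smul, ← smul_add, LinearMap.smul_apply, hX, smul_zero]

theorem rnm_Ivl {κ κ' : Type} [Fintype κ] [DecidableEq κ] [Fintype κ'] [DecidableEq κ']
    (e : κ ≃ κ') {u : Tn κ B} (hu : u ∈ Ivl L κ) : rnm e u ∈ Ivl L κ' := by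
  intro X hX
  rw [act_rnm, hu X hX]
  rfl

section kill

variable {κ : Type} [Fintype κ] [DecidableEq κ]

/-- Tensors which are invariant in two slots. -/
theorem slot_split {k l : κ} (hkl : k ≠ l) {w : Tn κ B} (hw : w ∈ Ivl L κ)
    (hw' : ∀ X ∈ L, (sl X k + sl X l : OpT κ B) w = 0) (F : Fam Om)
    (h2 : Ivl L (Fin 2) ≤ F.N (Fin 2))
    (h3 : Ivl L {m // m ≠ k ∧ m ≠ l} ≤ F.N {m // m ≠ k ∧ m ≠ l}) : w ∈ F.N κ := by
  classical
  let W : Submodule ℂ (Tn {m // m ≠ k ∧ m ≠ l} B) := Ivl L {m // m ≠ k ∧ m ≠ l}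
  have hW : ∀ a b, cev k l a b w ∈ W := by
    intro a b X hX
    rw [act_cev hkl a b X w (hw' X hX), hw X hX, map_zero]
  let b := Module.finBasis ℂ W
  obtain ⟨r, hr⟩ := LinearMap.exists_leftInverse_of_injective W.subtype (Submodule.ker_subtype W)
  let lam : Fin (Module.finrank ℂ W) → Tn {m // m ≠ k ∧ m ≠ l} B →ₗ[ℂ] ℂ := fun s =>
    (b.coord s).comp r
  let G : Fin (Module.finrank ℂ W) → Tn (Fin 2) B := fun s z => lam s (cev k l (z 0) (z 1) w)
  have hG : ∀ s, G s ∈ Ivl L (Fin 2) := by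
    intro s X hX
    funext z
    unfold act
    rw [Fin.sum_univ_two]
    have e1 : ∀ j, X j (z 0) * G s (Function.update z 0 j) =
        lam s (X j (z 0) • cev k l j (z 1) w) := by
      intro j
      rw [map_smul, smul_eq_mul]
      simp only [G, Function.update_self]
      rw [Function.update_of_ne (by decide)]
    have e2 : ∀ j, X j (z 1) * G s (Function.update z 1 j) =
        lam s (X j (z 1) • cev k l (z 0) j w) := by
      intro j
      rw [map_smul, smul_eq_mul]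
      simp only [G, Function.update_self]
      rw [Function.update_of_ne (by decide)]
    rw [Finset.sum_congr rfl fun j _ => e1 j, Finset.sum_congr rfl fun j _ => e2 j, ← map_sum,
      ← map_sum, ← map_add]
    have e3 : ∑ j, X j (z 0) • cev k l j (z 1) w + ∑ j, X j (z 1) • cev k l (z 0) j w = 0 := by
      have e4 := congrArg (cev k l (z 0) (z 1)) (hw' X hX)
      rw [map_zero] at e4
      rw [← e4]
      funext K
      change _ = (sl X k w + sl X l w) (ext2 k l (z 0) (z 1) K)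
      rw [Pi.add_apply, Pi.add_apply, Finset.sum_apply, Finset.sum_apply, sl_apply, sl_apply]
      have e5 : ext2 k l (z 0) (z 1) K k = z 0 := by
        unfold ext2
        rw [dif_neg fun h => h.1 rfl, if_pos rfl]
      have e6 : ext2 k l (z 0) (z 1) K l = z 1 := by
        unfold ext2
        rw [dif_neg fun h => h.2 rfl, if_neg hkl.symm]
      rw [e5, e6]
      congr 1
      · refine Finset.sum_congr rfl fun j _ => ?_
        rw [Pi.smul_apply, smul_eq_mul]
        congr 1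
        change w (ext2 k l j (z 1) K) = _
        congr 1
        funext m
        by_cases hm : m = k
        · subst hm
          rw [Function.update_self]
          unfold ext2
          rw [dif_neg fun h => h.1 rfl, if_pos rfl]
        · rw [Function.update_of_ne hm]
          unfold ext2
          rw [if_neg hm, if_neg hm]
      · refine Finset.sum_congr rfl fun j _ => ?_
        rw [Pi.smul_apply, smul_eq_mul]
        congr 1
        change w (ext2 k l (z 0) j K) = _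
        congr 1
        funext m
        by_cases hm : m = l
        · subst hm
          rw [Function.update_self]
          unfold ext2
          rw [dif_neg fun h => h.2 rfl, if_neg hkl.symm]
        · rw [Function.update_of_ne hm]
          unfold ext2
          by_cases hmk : m = k
          · subst hmk
            rw [dif_neg fun h => h.1 rfl, if_pos rfl, dif_neg fun h => h.1 rfl, if_pos rfl]
          · rw [dif_pos ⟨hmk, hm⟩, dif_pos ⟨hmk, hm⟩]
    rw [e3, map_zero]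
    rfl
  have hex : w = ∑ s, rnm (front hkl) (prd (G s) (b s : Tn {m // m ≠ k ∧ m ≠ l} B)) := by
    funext x
    rw [Finset.sum_apply]
    have e1 : ∀ s, rnm (front hkl) (prd (G s) (b s : Tn {m // m ≠ k ∧ m ≠ l} B)) x =
        (b.repr ⟨_, hW (x k) (x l)⟩ s) * (b s : Tn {m // m ≠ k ∧ m ≠ l} B) fun m => x m.1 := by
      intro s
      change G s ((x ∘ front hkl) ∘ Sum.inl) * (b s : Tn {m // m ≠ k ∧ m ≠ l} B)
        ((x ∘ front hkl) ∘ Sum.inr) = _
      congr 1
      change b.repr (r (cev k l (x k) (x l) w)) s = _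
      congr 2
      exact LinearMap.congr_fun hr ⟨_, hW (x k) (x l)⟩
    rw [Finset.sum_congr rfl fun s _ => e1 s]
    have e3 := congrArg (Submodule.subtype W) (b.sum_repr ⟨_, hW (x k) (x l)⟩)
    rw [map_sum] at e3
    have e4 := congrFun e3 fun m => x m.1
    rw [Finset.sum_apply] at e4
    refine Eq.trans ?_ e4.symm
    change w x = w (ext2 k l (x k) (x l) fun m => x m.1)
    rw [ext2_self hkl]
  rw [hex]
  exact Submodule.sum_mem _ fun s _ => F.rnm _ _ (F.prd _ _ (h2 (hG s)) (h3 (b s).2))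

end kill

section adj

theorem Psi_Ivl [Fintype J] (h : PT L S ρ p) (hsp : ∀ X ∈ L, Xᵀ * Om + Om * X = 0) (i : I) :
    Psi ρ Om i ∈ Ivl L (Fin 2 ⊕ Fin 2) := by
  intro X hX
  exact tensor_inv (ψ := sw ρ i (0 : Fin 2) 1)
    (fun u => h.act (h.toPH.sw_ok i (by decide)) X hX u) (hsp X hX)

/-- The relations between the factors and the polarization. -/
theorem PT.adj [Fintype J] (h : PT L S ρ p) (hsp : ∀ X ∈ L, Xᵀ * Om + Om * X = 0)
    (hOm : Om * Om = -1) (hOmT : Omᵀ = -Om) (i : I) : ∃ d, Adj Om (ρ i) d := by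
  have h0 : ∀ X : Matrix (Fin 2) (Fin 2) ℂ, X.trace = 0 → Om * ρ i X = -((ρ i X)ᵀ * Om) := by
    intro X hX
    have h1 := hsp _ (h.mem i hX)
    rw [add_comm] at h1
    exact eq_neg_of_add_eq_zero_left h1
  have h1 : Om * ρ i 1 = (ρ i 1)ᵀ * Om := by
    have e1 : (1 : Matrix (Fin 2) (Fin 2) ℂ) = !![1, 0; 0, -1] * !![1, 0; 0, -1] := by
      ext x y
      fin_cases x <;> fin_cases y <;> simp [Matrix.mul_apply, Fin.sum_univ_two]
    have e2 : Matrix.trace (!![1, 0; 0, -1] : Matrix (Fin 2) (Fin 2) ℂ) = 0 := by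
      rw [Matrix.trace_fin_two]
      simp
    rw [e1, h.mul, ← Matrix.mul_assoc, h0 _ e2, Matrix.neg_mul, Matrix.mul_assoc, h0 _ e2,
      Matrix.mul_neg, neg_neg, ← Matrix.mul_assoc, ← Matrix.transpose_mul]
  refine ⟨(ρ i (mu 0 0)).trace, hOm, hOmT, h.mul i, fun X => ?_, fun X => ?_, ?_⟩
  · obtain ⟨X₀, c, hX₀, rfl⟩ : ∃ (X₀ : Matrix (Fin 2) (Fin 2) ℂ) (c : ℂ), X₀.trace = 0 ∧
        X = c • 1 + X₀ := by
      refine ⟨X - (X.trace / 2) • 1, X.trace / 2, ?_, by abel⟩
      rw [Matrix.trace_sub, Matrix.trace_smul, Matrix.trace_one, smul_eq_mul]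
      simp
    have e1 : ad (c • 1 + X₀) = c • 1 - X₀ := by
      unfold ad
      rw [Matrix.trace_add, Matrix.trace_smul, Matrix.trace_one, hX₀, smul_eq_mul]
      simp only [Fintype.card_fin, Nat.cast_ofNat, add_zero]
      module
    rw [e1, map_add, map_smul, map_sub, map_smul, Matrix.mul_add, Matrix.mul_smul, h1, h0 X₀ hX₀,
      Matrix.transpose_sub, Matrix.transpose_smul, Matrix.sub_mul, Matrix.smul_mul, sub_eq_add_neg]
  · have e1 : ∀ a b : Fin 2, (ρ i (mu a b)).trace = (ρ i (mu 0 0)).trace * (mu a b).trace := by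
      intro a b
      by_cases hab : a = b
      · subst hab
        rw [Matrix.trace_single_eq_same, mul_one]
        have e2 : mu a a = mu a 0 * mu 0 a := by rw [mu_mul, if_pos rfl]
        have e3 : mu 0 0 = mu 0 a * mu a 0 := by rw [mu_mul, if_pos rfl]
        rw [e2, e3, h.mul, h.mul, Matrix.trace_mul_comm]
      · rw [Matrix.trace_single_eq_of_ne _ _ _ hab, mul_zero]
        have e2 : mu a b = mu a a * mu a b := by rw [mu_mul, if_pos rfl]
        rw [e2, h.mul, Matrix.trace_mul_comm, ← h.mul, mu_mul, if_neg (Ne.symm hab), map_zero,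
          Matrix.trace_zero]
    have e4 : X = ∑ a, ∑ b, X a b • mu a b := by
      conv_lhs => rw [Matrix.matrix_eq_sum_single X]
      refine Finset.sum_congr rfl fun a _ => Finset.sum_congr rfl fun b _ => ?_
      rw [Matrix.smul_single, smul_eq_mul, mul_one]
    rw [e4, map_sum, Matrix.trace_sum, Matrix.trace_sum, Finset.mul_sum]
    refine Finset.sum_congr rfl fun a _ => ?_
    rw [map_sum, Matrix.trace_sum, Matrix.trace_sum, Finset.mul_sum]
    refine Finset.sum_congr rfl fun b _ => ?_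
    rw [map_smul, Matrix.trace_smul, Matrix.trace_smul, e1, smul_eq_mul, smul_eq_mul]
    ring
  · obtain ⟨n, hn⟩ := trace_idem (ρ i (mu 0 0)) (by rw [← h.mul, mu_mul, if_pos rfl])
    rw [hn]
    have h2 : ((2 + n : ℕ) : ℂ) ≠ 0 := Nat.cast_ne_zero.2 (by omega)
    push_cast at h2
    exact h2

/-- The tensors of the commutant. -/
theorem w2_Ivl (hsp : ∀ X ∈ L, Xᵀ * Om + Om * X = 0) {E : Matrix B B ℂ}
    (hE : ∀ X ∈ L, E * X = X * E) : w2 (Om * E) ∈ Ivl L (Fin 2) := by
  intro X hX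
  funext I
  unfold act w2
  rw [Fin.sum_univ_two]
  have h1 : Xᵀ * (Om * E) + (Om * E) * X = 0 := by
    rw [Matrix.mul_assoc Om, hE X hX, ← Matrix.mul_assoc Om, ← Matrix.mul_assoc, ← Matrix.add_mul,
      hsp X hX, Matrix.zero_mul]
  have h2 := congrFun (congrFun h1 (I 0)) (I 1)
  rw [Matrix.add_apply, Matrix.mul_apply, Matrix.mul_apply, Matrix.zero_apply] at h2
  have e1 : ∀ j, X j (I 0) * (Om * E) (Function.update I 0 j 0) (Function.update I 0 j 1) =
      Xᵀ (I 0) j * (Om * E) j (I 1) := by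
    intro j
    rw [Function.update_self, Function.update_of_ne (by decide), Matrix.transpose_apply]
  have e2 : ∀ j, X j (I 1) * (Om * E) (Function.update I 1 j 0) (Function.update I 1 j 1) =
      (Om * E) (I 0) j * X j (I 1) := by
    intro j
    rw [Function.update_self, Function.update_of_ne (by decide), mul_comm]
  rw [Pi.zero_apply, Finset.sum_congr rfl fun j _ => e1 j, Finset.sum_congr rfl fun j _ => e2 j, h2]

/-- The crossed tensor belongs to the family. -/
theorem tC_mem [Fintype J] (h : PT L S ρ p) (hsp : ∀ X ∈ L, Xᵀ * Om + Om * X = 0)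
    (F : Fam Om)
    (hanti : ∀ t ∈ Ivl L (Fin 2 ⊕ Fin 2), rnm (Equiv.swap (Sum.inl 0) (Sum.inl 1)) t = -t →
      rnm (Equiv.swap (Sum.inr 0) (Sum.inr 1)) t = -t → t ∈ F.N (Fin 2 ⊕ Fin 2)) (i : I) :
    tC Om (ρ i) ∈ F.N (Fin 2 ⊕ Fin 2) := by
  let Q : Tn (Fin 2 ⊕ Fin 2) B := Psi ρ Om i
  have hQ : ∀ z, Q z = ∑ a, ∑ b, ((ρ i (mu a b))ᵀ * Om) (z (Sum.inr 0)) (z (Sum.inl 0)) *
      ((ρ i (mu b a))ᵀ * Om) (z (Sum.inr 1)) (z (Sum.inl 1)) := Psi_apply i
  let t : Tn (Fin 2 ⊕ Fin 2) B := Q - rnm (Equiv.swap (Sum.inl 0) (Sum.inl 1)) Q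
  have hQI : Q ∈ Ivl L (Fin 2 ⊕ Fin 2) := Psi_Ivl h hsp i
  have ht : t ∈ F.N (Fin 2 ⊕ Fin 2) := by
    refine hanti t (Submodule.sub_mem _ hQI (rnm_Ivl _ hQI)) ?_ ?_
    · funext z
      change Q _ - Q _ = -(Q _ - Q _)
      have e1 : (z ∘ (Equiv.swap (Sum.inl 0) (Sum.inl 1) : Equiv.Perm (Fin 2 ⊕ Fin 2))) ∘
          (Equiv.swap (Sum.inl 0) (Sum.inl 1) : Equiv.Perm (Fin 2 ⊕ Fin 2)) = z := by
        funext m
        simp
      rw [e1]
      ring
    · funext z
      change Q _ - Q _ = -(Q _ - Q _)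
      rw [hQ, hQ, hQ, hQ]
      have e1 : ∀ m, (Equiv.swap (Sum.inr 0) (Sum.inr 1) : Equiv.Perm (Fin 2 ⊕ Fin 2))
          (Sum.inl m) = Sum.inl m := fun m => Equiv.swap_apply_of_ne_of_ne (by simp) (by simp)
      have e2 : ∀ m, (Equiv.swap (Sum.inl 0) (Sum.inl 1) : Equiv.Perm (Fin 2 ⊕ Fin 2))
          (Sum.inr m) = Sum.inr m := fun m => Equiv.swap_apply_of_ne_of_ne (by simp) (by simp)
      simp only [Function.comp_apply, Equiv.swap_apply_left, Equiv.swap_apply_right, e1, e2]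
      rw [neg_sub, sub_eq_sub_iff_add_eq_add]
      have e3 : ∑ a, ∑ b, ((ρ i (mu a b))ᵀ * Om) (z (Sum.inr 1)) (z (Sum.inl 0)) *
          ((ρ i (mu b a))ᵀ * Om) (z (Sum.inr 0)) (z (Sum.inl 1)) =
          ∑ a, ∑ b, ((ρ i (mu a b))ᵀ * Om) (z (Sum.inr 0)) (z (Sum.inl 1)) *
          ((ρ i (mu b a))ᵀ * Om) (z (Sum.inr 1)) (z (Sum.inl 0)) := by
        rw [Finset.sum_comm]
        exact Finset.sum_congr rfl fun a _ => Finset.sum_congr rfl fun b _ => mul_comm _ _
      have e4 : ∑ a, ∑ b, ((ρ i (mu a b))ᵀ * Om) (z (Sum.inr 1)) (z (Sum.inl 1)) *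
          ((ρ i (mu b a))ᵀ * Om) (z (Sum.inr 0)) (z (Sum.inl 0)) =
          ∑ a, ∑ b, ((ρ i (mu a b))ᵀ * Om) (z (Sum.inr 0)) (z (Sum.inl 0)) *
          ((ρ i (mu b a))ᵀ * Om) (z (Sum.inr 1)) (z (Sum.inl 1)) := by
        rw [Finset.sum_comm]
        exact Finset.sum_congr rfl fun a _ => Finset.sum_congr rfl fun b _ => mul_comm _ _
      rw [e3, e4]
  have h1 := F.rnm (Equiv.swap (Sum.inl 1) (Sum.inr 0)) _ ht
  have h2 : rnm (Equiv.swap (Sum.inl 1) (Sum.inr 0)) t = tC Om (ρ i) := by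
    funext z
    change Q _ - Q _ = _
    rw [hQ, hQ]
    unfold tC
    have e1 : (Equiv.swap (Sum.inl 1) (Sum.inr 0) : Equiv.Perm (Fin 2 ⊕ Fin 2)) (Sum.inl 0) =
        Sum.inl 0 := Equiv.swap_apply_of_ne_of_ne (by simp) (by simp)
    have e2 : (Equiv.swap (Sum.inl 1) (Sum.inr 0) : Equiv.Perm (Fin 2 ⊕ Fin 2)) (Sum.inr 1) =
        Sum.inr 1 := Equiv.swap_apply_of_ne_of_ne (by simp) (by simp)
    have e3 : ∀ m, (Equiv.swap (Sum.inl 0) (Sum.inl 1) : Equiv.Perm (Fin 2 ⊕ Fin 2))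
        (Sum.inr m) = Sum.inr m := fun m => Equiv.swap_apply_of_ne_of_ne (by simp) (by simp)
    simp only [Function.comp_apply, Equiv.swap_apply_left, Equiv.swap_apply_right, e1, e2, e3]
  rwa [h2] at h1

variable {κ : Type} [Fintype κ] [DecidableEq κ]

/-- The families are stable under the exchanges. -/
theorem sw_mem' [Fintype J] (h : PT L S ρ p) (hsp : ∀ X ∈ L, Xᵀ * Om + Om * X = 0)
    (hOm : Om * Om = -1) (hOmT : Omᵀ = -Om) (F : Fam Om) (h2 : Ivl L (Fin 2) ≤ F.N (Fin 2))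
    (hanti : ∀ t ∈ Ivl L (Fin 2 ⊕ Fin 2), rnm (Equiv.swap (Sum.inl 0) (Sum.inl 1)) t = -t →
      rnm (Equiv.swap (Sum.inr 0) (Sum.inr 1)) t = -t → t ∈ F.N (Fin 2 ⊕ Fin 2))
    {k l : κ} (hkl : k ≠ l) (i : I) {u : Tn κ B} (hu : u ∈ F.N κ) : sw ρ i k l u ∈ F.N κ := by
  obtain ⟨d, hA⟩ := h.adj hsp hOm hOmT i
  have hw : w2 (Om * ρ i 1) ∈ F.N (Fin 2) := by
    exact h2 (w2_Ivl hsp fun X hX => h.one_comm i X hX)
  have hYY : ∀ v ∈ F.N κ, lf k l (cj Om (YY (ρ i))) v ∈ F.N κ := by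
    intro v hv
    rw [← opt_tC hA hkl]
    exact opt_mem F hkl (tC_mem h hsp F hanti i) (F.rnm _ _ hv)
  have hKK : lf k l (cj Om (KK (ρ i))) u ∈ F.N κ := by
    have e1 : lf k l (cj Om (KK (ρ i))) u =
        opt Om hkl (prd (w2 (Om * ρ i 1)) (w2 (Om * ρ i 1))) u := by
      rw [opt_tK]
      congr 1
      funext U
      unfold cj
      rw [KK_apply, Matrix.mul_smul, ← neg_smul]
      congr 1
      have e2 : Omᵀ * (Om * ρ i 1) * Om = ρ i 1 * Om := by
        rw [hOmT, ← Matrix.mul_assoc, Matrix.neg_mul, hOm, neg_neg, Matrix.one_mul]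
      have e3 : (ρ i 1 * Om)ᵀ = -(ρ i 1 * Om) := by
        have e4 := hA.adj 1
        have e5 : ad 1 = 1 := by
          unfold ad
          rw [Matrix.trace_one]
          simp only [Fintype.card_fin, Nat.cast_ofNat]
          module
        rw [e5] at e4
        rw [Matrix.transpose_mul, hOmT]
        have e6 : Om * (Om * ρ i 1) * Om = Om * ((ρ i 1)ᵀ * Om) * Om := by rw [e4]
        rw [← Matrix.mul_assoc, hOm, Matrix.neg_mul, Matrix.one_mul, Matrix.mul_assoc,
          Matrix.mul_assoc, hOm, Matrix.mul_neg, Matrix.mul_one] at e6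
        rw [Matrix.neg_mul, ← Matrix.mul_neg, ← e6, Matrix.neg_mul]
      have e8 : (ρ i 1 * (Om * U)).trace = (U * (ρ i 1 * Om)).trace := by
        rw [← Matrix.mul_assoc, Matrix.trace_mul_comm]
      rw [e2, e3, Matrix.mul_neg, Matrix.trace_neg, e8]
    rw [e1]
    exact opt_mem F hkl (tK_mem F hw) hu
  have hPP : lf k l (fun U => (ρ i 1)ᵀ * U * ρ i 1) u ∈ F.N κ := by
    have e1 : Omᵀ * (Om * ρ i 1) = ρ i 1 := by
      rw [hOmT, ← Matrix.mul_assoc, Matrix.neg_mul, hOm, neg_neg, Matrix.one_mul]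
    have e2 := opt_tP (Om := Om) hkl (Om * ρ i 1) u
    rw [e1] at e2
    rw [← e2]
    exact opt_mem F hkl (tP_mem F hw) hu
  have hsw : sw ρ i k l u = lf k l (fun U => (ρ i 1)ᵀ * U * ρ i 1) u -
      (2 + d)⁻¹ • (lf k l (cj Om (YY (ρ i))) (lf k l (cj Om (YY (ρ i))) u) +
        d • lf k l (cj Om (YY (ρ i))) u + (2 : ℂ) • lf k l (cj Om (KK (ρ i))) u) := by
    rw [lf_lf hkl]
    funext x
    have e1 : sw ρ i k l u x = (∑ a, ∑ b, (ρ i (mu a b))ᵀ * Uof k l u x * ρ i (mu b a))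
        (x k) (x l) := by
      unfold sw
      rw [LinearMap.sum_apply, Finset.sum_apply, Matrix.sum_apply]
      refine Finset.sum_congr rfl fun a _ => ?_
      rw [LinearMap.sum_apply, Finset.sum_apply, Matrix.sum_apply]
      refine Finset.sum_congr rfl fun b _ => ?_
      rw [Module.End.mul_apply, sl_apply, Matrix.mul_apply]
      have e2 : ∀ j', ((ρ i (mu a b))ᵀ * Uof k l u x) (x k) j' * ρ i (mu b a) j' (x l) =
          ∑ j, ρ i (mu a b) j (x k) * (ρ i (mu b a) j' (x l) *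
            u (Function.update (Function.update x k j) l j')) := by
        intro j'
        rw [Matrix.mul_apply, Finset.sum_mul]
        refine Finset.sum_congr rfl fun j _ => ?_
        rw [Matrix.transpose_apply]
        unfold Uof
        ring
      rw [Finset.sum_congr rfl fun j' _ => e2 j', Finset.sum_comm]
      refine Finset.sum_congr rfl fun j _ => ?_
      rw [sl_apply, Finset.mul_sum, Function.update_of_ne hkl.symm]
    have e3 := hA.rel' (Uof k l u x)
    rw [hA.cj_FF] at e3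
    have e4 := congrFun (congrFun e3 (x k)) (x l)
    rw [Matrix.sub_apply] at e4
    rw [e1, Pi.sub_apply]
    change _ = ((ρ i 1)ᵀ * Uof k l u x * ρ i 1) (x k) (x l) - ((2 + d)⁻¹ •
      (cj Om (YY (ρ i)) (cj Om (YY (ρ i)) (Uof k l u x)) + d • cj Om (YY (ρ i)) (Uof k l u x) +
        (2 : ℂ) • cj Om (KK (ρ i)) (Uof k l u x))) (x k) (x l)
    rw [← e4]
    ring
  rw [hsw]
  exact Submodule.sub_mem _ hPP (Submodule.smul_mem _ _ (Submodule.add_mem _ (Submodule.add_mem _
    (hYY _ (hYY _ hu)) (Submodule.smul_mem _ _ (hYY _ hu))) (Submodule.smul_mem _ _ hKK)))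

end adj

end

end Pool.Agent.H841.GP
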