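import Pool.Agent.H841.MS.Anti

/-!
# Commuting actions of two by two matrices on blocks: general patterns

The factor `i` acts on all blocks `j` with `S j i`.
-/

set_option linter.unusedSectionVars false

namespace Pool.Agent.H841.GP

open Finset Matrix Pool.Agent.W437.HC Pool.Agent.H841.MS

noncomputable section

section ms

variable {I J : Type} {B : Type} [Fintype B] [DecidableEq B]

/-- The algebras `M_2(ℂ)` (one for each `i : I`) act on the blocks `p j` of a vector space, commuting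
with each other; the `i`-th algebra acts on the blocks `j` with `S j i`. -/
structure PH (S : J → I → Prop) (ρ : I → Matrix (Fin 2) (Fin 2) ℂ →ₗ[ℂ] Matrix B B ℂ)
    (p : J → Matrix B B ℂ) : Prop where
  mul : ∀ i X Y, ρ i (X * Y) = ρ i X * ρ i Y
  comm : ∀ i i', i ≠ i' → ∀ X Y, ρ i X * ρ i' Y = ρ i' Y * ρ i X
  idem : ∀ j, p j * p j = p j
  orth : ∀ j j', j ≠ j' → p j * p j' = 0
  comm_p : ∀ i j X, ρ i X * p j = p j * ρ i X
  one_in : ∀ i j, S j i → ρ i 1 * p j = p j
  one_out : ∀ i j, ¬ S j i → ρ i 1 * p j = 0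

variable {S : J → I → Prop} {ρ : I → Matrix (Fin 2) (Fin 2) ℂ →ₗ[ℂ] Matrix B B ℂ}
  {p : J → Matrix B B ℂ} {κ : Type} [Fintype κ] [DecidableEq κ]

namespace PH

variable (h : PH S ρ p)
include h

theorem rs_mul (i : I) (X Y : Matrix (Fin 2) (Fin 2) ℂ) (k : κ) :
    rs ρ i X k * rs ρ i Y k = rs ρ i (Y * X) k := by
  unfold rs
  rw [sl_mul, h.mul]

theorem rs_comm {i i' : I} (hi : i ≠ i') (X Y : Matrix (Fin 2) (Fin 2) ℂ) (k l : κ) :
    rs ρ i X k * rs ρ i' Y l = rs ρ i' Y l * rs ρ i X k := by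
  by_cases hkl : k = l
  · subst hkl
    unfold rs
    rw [sl_mul, sl_mul, h.comm _ _ hi]
  · exact rs_comm_ne _ _ _ _ hkl

theorem rs_comm_p (i : I) (X : Matrix (Fin 2) (Fin 2) ℂ) (j : J) (k l : κ) :
    rs ρ i X k * sl (p j) l = sl (p j) l * rs ρ i X k := by
  by_cases hkl : k = l
  · subst hkl
    unfold rs
    rw [sl_mul, sl_mul, h.comm_p]
  · exact sl_comm _ _ hkl

/-- The exchange moves operators from one slot to the other one. -/
theorem sw_rs (i : I) {k l : κ} (hkl : k ≠ l) (X : Matrix (Fin 2) (Fin 2) ℂ) :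
    sw ρ i k l * rs ρ i X l = rs ρ i X k * sw ρ i k l := by
  have h1 : ∀ a b : Fin 2, sw ρ i k l * rs ρ i (mu a b) l = rs ρ i (mu a b) k * sw ρ i k l := by
    intro a b
    have e1 : sw ρ i k l * rs ρ i (mu a b) l =
        ∑ x, ∑ y, rs ρ i (mu x y) k * rs ρ i (mu a b * mu y x) l := by
      unfold sw
      rw [Finset.sum_mul]
      refine Finset.sum_congr rfl fun x _ => ?_
      rw [Finset.sum_mul]
      refine Finset.sum_congr rfl fun y _ => ?_
      rw [mul_assoc, h.rs_mul]
    have e2 : rs ρ i (mu a b) k * sw ρ i k l =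
        ∑ x, ∑ y, rs ρ i (mu x y * mu a b) k * rs ρ i (mu y x) l := by
      unfold sw
      rw [Finset.mul_sum]
      refine Finset.sum_congr rfl fun x _ => ?_
      rw [Finset.mul_sum]
      refine Finset.sum_congr rfl fun y _ => ?_
      rw [← mul_assoc, h.rs_mul]
    have e3 : ∀ x : Fin 2, ∑ y, rs ρ i (mu x y) k * rs ρ i (mu a b * mu y x) l =
        rs ρ i (mu x b) k * rs ρ i (mu a x) l := by
      intro x
      rw [Finset.sum_eq_single b]
      · rw [Matrix.single_mul_single_same, mul_one]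
      · intro y _ hy
        rw [Matrix.single_mul_single_of_ne _ _ _ _ hy.symm]
        unfold rs
        rw [map_zero, sl_zero, mul_zero]
      · intro hb
        exact absurd (Finset.mem_univ _) hb
    have e4 : ∀ x : Fin 2, ∑ y, rs ρ i (mu x y * mu a b) k * rs ρ i (mu y x) l =
        rs ρ i (mu x b) k * rs ρ i (mu a x) l := by
      intro x
      rw [Finset.sum_eq_single a]
      · rw [Matrix.single_mul_single_same, mul_one]
      · intro y _ hy
        rw [Matrix.single_mul_single_of_ne _ _ _ _ hy]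
        unfold rs
        rw [map_zero, sl_zero, zero_mul]
      · intro hb
        exact absurd (Finset.mem_univ _) hb
    rw [e1, e2]
    exact Finset.sum_congr rfl fun x _ => (e3 x).trans (e4 x).symm
  rw [rs_expand i X l, rs_expand i X k, Finset.mul_sum, Finset.sum_mul]
  refine Finset.sum_congr rfl fun a _ => ?_
  rw [Finset.mul_sum, Finset.sum_mul]
  refine Finset.sum_congr rfl fun b _ => ?_
  rw [mul_smul_comm, smul_mul_assoc, h1]

theorem sw_rs' (i : I) {k l : κ} (hkl : k ≠ l) (X : Matrix (Fin 2) (Fin 2) ℂ) :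
    sw ρ i k l * rs ρ i X k = rs ρ i X l * sw ρ i k l := by
  rw [sw_symm i hkl, h.sw_rs i hkl.symm]

/-- The exchange commutes with the operators in the other slots. -/
theorem sw_sl (i : I) {k l m : κ} (hk : m ≠ k) (hl : m ≠ l) (X : Matrix B B ℂ) :
    sw ρ i k l * sl X m = sl X m * sw ρ i k l := by
  unfold sw
  rw [Finset.sum_mul, Finset.mul_sum]
  refine Finset.sum_congr rfl fun x _ => ?_
  rw [Finset.sum_mul, Finset.mul_sum]
  refine Finset.sum_congr rfl fun y _ => ?_
  unfold rs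
  rw [mul_assoc, sl_comm _ _ (Ne.symm hl), ← mul_assoc, sl_comm _ _ (Ne.symm hk), mul_assoc]

/-- The exchange commutes with the operators of the other factors. -/
theorem sw_rs_ne {i i' : I} (hi : i ≠ i') (k l m : κ) (X : Matrix (Fin 2) (Fin 2) ℂ) :
    sw ρ i k l * rs ρ i' X m = rs ρ i' X m * sw ρ i k l := by
  unfold sw
  rw [Finset.sum_mul, Finset.mul_sum]
  refine Finset.sum_congr rfl fun x _ => ?_
  rw [Finset.sum_mul, Finset.mul_sum]
  refine Finset.sum_congr rfl fun y _ => ?_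
  rw [mul_assoc, h.rs_comm hi, ← mul_assoc, h.rs_comm hi, mul_assoc]

theorem sw_p (i : I) (j : J) (k l m : κ) : sw ρ i k l * sl (p j) m = sl (p j) m * sw ρ i k l := by
  unfold sw
  rw [Finset.sum_mul, Finset.mul_sum]
  refine Finset.sum_congr rfl fun x _ => ?_
  rw [Finset.sum_mul, Finset.mul_sum]
  refine Finset.sum_congr rfl fun y _ => ?_
  rw [mul_assoc, h.rs_comm_p, ← mul_assoc, h.rs_comm_p, mul_assoc]

/-- The exchange commutes with the action of all factors. -/
theorem sw_ac (i i' : I) {k l : κ} (hkl : k ≠ l) (X : Matrix (Fin 2) (Fin 2) ℂ) :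
    sw ρ i k l * ac (ρ i' X) = ac (ρ i' X) * sw ρ i k l := by
  by_cases hi : i = i'
  · subst hi
    unfold ac
    have hl : l ∈ Finset.univ.erase k := Finset.mem_erase.2 ⟨hkl.symm, Finset.mem_univ l⟩
    rw [← Finset.add_sum_erase _ _ (Finset.mem_univ k), ← Finset.add_sum_erase _ _ hl, mul_add,
      mul_add, add_mul, add_mul]
    have e1 := h.sw_rs' i hkl X
    have e2 := h.sw_rs i hkl X
    unfold rs at e1 e2
    rw [e1, e2, Finset.mul_sum, Finset.sum_mul, ← add_assoc, ← add_assoc,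
      add_comm (sl ((ρ i) X) l * sw ρ i k l)]
    congr 1
    refine Finset.sum_congr rfl fun m hm => ?_
    have h1 : m ≠ l := Finset.ne_of_mem_erase hm
    have h2 : m ≠ k := Finset.ne_of_mem_erase (Finset.mem_of_mem_erase hm)
    exact h.sw_sl i h2 h1 _
  · unfold ac
    rw [Finset.mul_sum, Finset.sum_mul]
    exact Finset.sum_congr rfl fun m _ => h.sw_rs_ne hi k l m X

/-- The square of the exchange. -/
theorem sw_sq (i : I) {k l : κ} (hkl : k ≠ l) :
    sw ρ i k l * sw ρ i k l = rs ρ i 1 k * rs ρ i 1 l := by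
  have e1 : sw ρ i k l * sw ρ i k l = ∑ a, ∑ b, rs ρ i (mu b a) k * rs ρ i (mu a b) l *
      sw ρ i k l := by
    conv_lhs => rw [show sw ρ i k l * sw ρ i k l = sw ρ i k l *
      ∑ a, ∑ b, rs ρ i (mu a b) k * rs ρ i (mu b a) l from rfl]
    rw [Finset.mul_sum]
    refine Finset.sum_congr rfl fun a _ => ?_
    rw [Finset.mul_sum]
    refine Finset.sum_congr rfl fun b _ => ?_
    rw [← mul_assoc, h.sw_rs' i hkl, mul_assoc, h.sw_rs i hkl, ← mul_assoc,
      rs_comm_ne i i _ _ hkl.symm]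
  have e2 : ∀ a b : Fin 2, rs ρ i (mu b a) k * rs ρ i (mu a b) l * sw ρ i k l =
      ∑ x, ∑ y, rs ρ i (mu x y * mu b a) k * rs ρ i (mu y x * mu a b) l := by
    intro a b
    unfold sw
    rw [Finset.mul_sum]
    refine Finset.sum_congr rfl fun x _ => ?_
    rw [Finset.mul_sum]
    refine Finset.sum_congr rfl fun y _ => ?_
    rw [mul_assoc, ← mul_assoc (rs ρ i (mu a b) l), rs_comm_ne i i _ _ hkl.symm, mul_assoc,
      h.rs_mul, ← mul_assoc, h.rs_mul]
  have e3 : ∀ a b : Fin 2, ∑ x, ∑ y, rs ρ i (mu x y * mu b a) k * rs ρ i (mu y x * mu a b) l =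
      rs ρ i (mu a a) k * rs ρ i (mu b b) l := by
    intro a b
    rw [Finset.sum_eq_single a, Finset.sum_eq_single b]
    · rw [Matrix.single_mul_single_same, Matrix.single_mul_single_same, mul_one]
    · intro y _ hy
      rw [Matrix.single_mul_single_of_ne _ _ _ _ hy]
      unfold rs
      rw [map_zero, sl_zero, zero_mul]
    · intro hb
      exact absurd (Finset.mem_univ _) hb
    · intro x _ hx
      refine Finset.sum_eq_zero fun y _ => ?_
      rw [Matrix.single_mul_single_of_ne _ _ _ _ hx]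
      unfold rs
      rw [map_zero, sl_zero, mul_zero]
    · intro hb
      exact absurd (Finset.mem_univ _) hb
  have e4 : ∀ m : κ, rs ρ i 1 m = ∑ a, rs ρ i (mu a a) m := by
    intro m
    rw [rs_expand i 1 m]
    refine Finset.sum_congr rfl fun a _ => ?_
    rw [Finset.sum_eq_single a]
    · rw [Matrix.one_apply_eq, one_smul]
    · intro b _ hb
      rw [Matrix.one_apply_ne hb.symm, zero_smul]
    · intro hb
      exact absurd (Finset.mem_univ _) hb
  rw [e1, e4, e4, Finset.sum_mul_sum]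
  refine Finset.sum_congr rfl fun a _ => Finset.sum_congr rfl fun b _ => ?_
  rw [e2, e3]

/-- The conjugate of an exchange. -/
theorem sw_sw (i : I) {k l m : κ} (hkl : k ≠ l) (hmk : m ≠ k) (hml : m ≠ l) :
    sw ρ i k m * sw ρ i k l = sw ρ i m l * sw ρ i k m := by
  conv_lhs => rw [show sw ρ i k m * sw ρ i k l = sw ρ i k m *
    ∑ a, ∑ b, rs ρ i (mu a b) k * rs ρ i (mu b a) l from rfl]
  conv_rhs => rw [show sw ρ i m l * sw ρ i k m =
    (∑ a, ∑ b, rs ρ i (mu a b) m * rs ρ i (mu b a) l) * sw ρ i k m from rfl]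
  rw [Finset.mul_sum, Finset.sum_mul]
  refine Finset.sum_congr rfl fun a _ => ?_
  rw [Finset.mul_sum, Finset.sum_mul]
  refine Finset.sum_congr rfl fun b _ => ?_
  rw [← mul_assoc, h.sw_rs' i hmk.symm, mul_assoc]
  have e1 := h.sw_sl i (k := k) (l := m) (m := l) hkl.symm hml.symm (ρ i (mu b a))
  unfold rs
  rw [e1, ← mul_assoc]

/-- The Lie algebra `sl_2` kills the antisymmetric tensors. -/
theorem rs_anti (i : I) {k l : κ} (hkl : k ≠ l) (Y : Matrix (Fin 2) (Fin 2) ℂ) (hY : Y.trace = 0) :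
    (rs ρ i Y k + rs ρ i Y l) * sw ρ i k l = rs ρ i Y k * rs ρ i 1 l + rs ρ i 1 k * rs ρ i Y l := by
  have hc := fun X X' : Matrix (Fin 2) (Fin 2) ℂ => rs_comm_ne (ρ := ρ) (B := B) i i X X' hkl.symm
  have e1 : (rs ρ i Y k + rs ρ i Y l) * sw ρ i k l =
      ∑ x, ∑ y, (rs ρ i (mu x y * Y) k * rs ρ i (mu y x) l +
        rs ρ i (mu x y) k * rs ρ i (mu y x * Y) l) := by
    unfold sw
    rw [Finset.mul_sum]
    refine Finset.sum_congr rfl fun x _ => ?_
    rw [Finset.mul_sum]
    refine Finset.sum_congr rfl fun y _ => ?_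
    rw [add_mul, ← mul_assoc, h.rs_mul, ← mul_assoc, hc, mul_assoc, h.rs_mul]
  have e2 : Y 1 1 = -Y 0 0 := by
    rw [Matrix.trace_fin_two] at hY
    linear_combination hY
  rw [e1]
  have e3 : ∀ (x y : Fin 2) (m : κ), rs ρ i (mu x y * Y) m =
      Y y 0 • rs ρ i (mu x 0) m + Y y 1 • rs ρ i (mu x 1) m := by
    intro x y m
    have e4 : mu x y * Y = Y y 0 • mu x 0 + Y y 1 • mu x 1 := by
      ext a b
      rw [Matrix.add_apply, Matrix.smul_apply, Matrix.smul_apply, smul_eq_mul, smul_eq_mul]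
      by_cases ha : x = a
      · subst ha
        rw [Matrix.single_mul_apply_same, one_mul]
        fin_cases b <;> simp
      · rw [Matrix.single_mul_apply_of_ne (h := Ne.symm ha)]
        simp [ha]
    rw [e4, rs_add, rs_smul, rs_smul]
  simp only [e3]
  rw [rs_expand i Y k, rs_expand i Y l, rs_expand i 1 k, rs_expand i 1 l]
  simp only [Fin.sum_univ_two, e2, Matrix.one_apply_eq, Matrix.one_apply_ne (zero_ne_one (α := Fin 2)),
    Matrix.one_apply_ne (one_ne_zero (α := Fin 2)), one_smul, zero_smul, add_zero, zero_add]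
  simp only [add_mul, mul_add, smul_mul_assoc, mul_smul_comm]
  module

/-- The exchange is trivial on the symmetric tensors `v ⊗ v`. -/
theorem sw_idem (i : I) {k l : κ} (hkl : k ≠ l) (Q : Matrix (Fin 2) (Fin 2) ℂ)
    (hQ : Q 0 0 * Q 1 1 = Q 0 1 * Q 1 0) :
    sw ρ i k l * (rs ρ i Q k * rs ρ i Q l) = rs ρ i Q k * rs ρ i Q l := by
  have hc := fun X X' : Matrix (Fin 2) (Fin 2) ℂ => rs_comm_ne (ρ := ρ) (B := B) i i X X' hkl.symm
  have e1 : sw ρ i k l * (rs ρ i Q k * rs ρ i Q l) =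
      ∑ x, ∑ y, rs ρ i (Q * mu x y) k * rs ρ i (Q * mu y x) l := by
    unfold sw
    rw [Finset.sum_mul]
    refine Finset.sum_congr rfl fun x _ => ?_
    rw [Finset.sum_mul]
    refine Finset.sum_congr rfl fun y _ => ?_
    rw [mul_assoc, ← mul_assoc (rs ρ i (mu y x) l), hc, mul_assoc, h.rs_mul, ← mul_assoc, h.rs_mul]
  have e3 : ∀ (x y : Fin 2) (m : κ), rs ρ i (Q * mu x y) m =
      Q 0 x • rs ρ i (mu 0 y) m + Q 1 x • rs ρ i (mu 1 y) m := by
    intro x y m
    have e4 : Q * mu x y = Q 0 x • mu 0 y + Q 1 x • mu 1 y := by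
      ext a b
      rw [Matrix.add_apply, Matrix.smul_apply, Matrix.smul_apply, smul_eq_mul, smul_eq_mul]
      by_cases hb : y = b
      · subst hb
        rw [Matrix.mul_single_apply_same, mul_one]
        fin_cases a <;> simp
      · rw [Matrix.mul_single_apply_of_ne (hbj := Ne.symm hb)]
        simp [hb]
    rw [e4, rs_add, rs_smul, rs_smul]
  rw [e1]
  simp only [e3]
  rw [rs_expand i Q k, rs_expand i Q l]
  simp only [Fin.sum_univ_two, add_mul, mul_add, smul_mul_assoc, mul_smul_comm]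
  linear_combination (norm := module) hQ •
    (rs ρ i (mu 0 1) k * rs ρ i (mu 1 0) l - rs ρ i (mu 1 1) k * rs ρ i (mu 0 0) l -
      rs ρ i (mu 0 0) k * rs ρ i (mu 1 1) l + rs ρ i (mu 1 0) k * rs ρ i (mu 0 1) l)

end PH

end ms

end

end Pool.Agent.H841.GP
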