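import Pool.Agent.H841.GP.Slot

/-!
# Symmetric tensors in one factor, general patterns
-/

set_option linter.unusedSectionVars false

namespace Pool.Agent.H841.GP

open Finset Matrix Pool.Agent.W437.HC Pool.Agent.H841.MS

noncomputable section

variable {I J : Type} {B : Type} [Fintype B] [DecidableEq B] {κ : Type} [Fintype κ] [DecidableEq κ]
  {S : J → I → Prop} {ρ : I → Matrix (Fin 2) (Fin 2) ℂ →ₗ[ℂ] Matrix B B ℂ} {p : J → Matrix B B ℂ}
  {c : κ → J}

namespace PH

variable (h : PH S ρ p)
include h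

theorem p_one_in {i : I} {j : J} (hj : S j i) : p j * ρ i 1 = p j := by
  rw [← h.comm_p, h.one_in i j hj]

theorem rs_one {i : I} {k : κ} (hk : S (c k) i) {u : Tn κ B} (hu : u ∈ Cl p c) :
    rs ρ i 1 k u = u := by
  conv_lhs => rw [← hu k]
  rw [← Module.End.mul_apply]
  unfold rs
  rw [sl_mul, h.p_one_in hk]
  exact hu k

theorem rs_zero {i : I} {k : κ} (hk : ¬ S (c k) i) {u : Tn κ B} (hu : u ∈ Cl p c)
    (X : Matrix (Fin 2) (Fin 2) ℂ) : rs ρ i X k u = 0 := by
  rw [← hu k, ← Module.End.mul_apply]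
  unfold rs
  have e1 : p (c k) * ρ i X = 0 := by
    rw [← h.comm_p, ← mul_one X, h.mul, Matrix.mul_assoc, h.one_out i _ hk, Matrix.mul_zero]
  rw [sl_mul, e1, sl_zero, LinearMap.zero_apply]

theorem sw_ok (i : I) {k l : κ} (hkl : k ≠ l) : Ok ρ p (sw ρ i k l) :=
  ⟨fun i' X => h.sw_ac i i' hkl X, fun j m => h.sw_p i j k l m⟩

theorem sw_fre {i i' : I} (hi : i ≠ i') (k l : κ) : Fre ρ i' (sw ρ i k l) :=
  fun X m => h.sw_rs_ne hi k l m X

/-- On the tensors with the right colours the exchange is an involution. -/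
theorem sw_inv (i : I) {k l : κ} (hkl : k ≠ l) (hk : S (c k) i) (hl : S (c l) i) {u : Tn κ B}
    (hu : u ∈ Cl p c) : sw ρ i k l (sw ρ i k l u) = u := by
  have h1 := LinearMap.congr_fun (h.sw_sq i hkl) u
  rw [Module.End.mul_apply, Module.End.mul_apply] at h1
  rw [h1, h.rs_one hl hu, h.rs_one hk hu]

theorem sw_disj (i : I) {k l m n : κ} (hmn : m ≠ k) (h2 : m ≠ l) (h3 : n ≠ k) (h4 : n ≠ l) :
    sw ρ i k l * sw ρ i m n = sw ρ i m n * sw ρ i k l := by
  conv_lhs => rw [show sw ρ i k l * sw ρ i m n = sw ρ i k l *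
    ∑ a, ∑ b, rs ρ i (mu a b) m * rs ρ i (mu b a) n from rfl]
  conv_rhs => rw [show sw ρ i m n * sw ρ i k l =
    (∑ a, ∑ b, rs ρ i (mu a b) m * rs ρ i (mu b a) n) * sw ρ i k l from rfl]
  rw [Finset.mul_sum, Finset.sum_mul]
  refine Finset.sum_congr rfl fun a _ => ?_
  rw [Finset.mul_sum, Finset.sum_mul]
  refine Finset.sum_congr rfl fun b _ => ?_
  have e1 := h.sw_sl i (k := k) (l := l) (m := m) hmn h2 (ρ i (mu a b))
  have e2 := h.sw_sl i (k := k) (l := l) (m := n) h3 h4 (ρ i (mu b a))
  unfold rs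
  rw [← mul_assoc, e1, mul_assoc, e2, ← mul_assoc]

/-- The symmetrizer of the factor `i` in the slots of a finite set of slots. -/
theorem exists_sym (i : I) (K : Finset κ) (hK : ∀ k ∈ K, S (c k) i) :
    ∃ e : OpT κ B, Ok ρ p e ∧ (∀ i', i ≠ i' → Fre ρ i' e) ∧
      (∀ k ∈ K, ∀ l ∈ K, k ≠ l → ∀ u ∈ Cl p c, sw ρ i k l (e u) = e u) ∧
      ∀ N : Submodule ℂ (Tn κ B), Sta ρ i K N → ∀ u,
        (∀ k ∈ K, ∀ l ∈ K, k ≠ l → sw ρ i k l u - u ∈ N) → e u - u ∈ N := by
  induction K using Finset.induction_on with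
  | empty =>
    refine ⟨1, Ok.one, fun _ _ => Fre.one _, fun k hk => absurd hk (Finset.notMem_empty k),
      fun N _ u _ => ?_⟩
    rw [Module.End.one_apply, sub_self]
    exact N.zero_mem
  | insert n K hn ih =>
    obtain ⟨e, h1, h2, h3, h4⟩ := ih fun k hk => hK k (Finset.mem_insert_of_mem hk)
    have hnc : S (c n) i := hK n (Finset.mem_insert_self n K)
    have hne : ∀ q ∈ K, q ≠ n := fun q hq h0 => hn (h0 ▸ hq)
    let T : OpT κ B := 1 + ∑ q ∈ K, sw ρ i q n
    have hT : Ok ρ p T := Ok.one.add (Ok.sum _ _ fun q hq => h.sw_ok i (hne q hq))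
    have hT' : ∀ i', i ≠ i' → Fre ρ i' T := fun i' hi =>
      (Fre.one i').add (Fre.sum _ _ fun q _ => h.sw_fre hi q n)
    have hr : ((K.card : ℂ) + 1) ≠ 0 := by exact_mod_cast Nat.succ_ne_zero K.card
    refine ⟨((K.card : ℂ) + 1)⁻¹ • (T * e), (hT.mul h1).smul _,
      fun i' hi => ((hT' i' hi).mul (h2 i' hi)).smul _, ?_, ?_⟩
    · -- the symmetry
      have key1 : ∀ a ∈ K, ∀ u ∈ Cl p c, sw ρ i a n (T (e u)) = T (e u) := by
        intro a ha u hu
        have hac : S (c a) i := hK a (Finset.mem_insert_of_mem ha)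
        have hev : e u ∈ Cl p c := h1.mem hu
        have e1 : T (e u) = e u + (sw ρ i a n (e u) + ∑ q ∈ K.erase a, sw ρ i q n (e u)) := by
          change (1 + ∑ q ∈ K, sw ρ i q n : OpT κ B) (e u) = _
          rw [LinearMap.add_apply, LinearMap.sum_apply, Module.End.one_apply,
            Finset.add_sum_erase K (fun q => sw ρ i q n (e u)) ha]
        rw [e1, map_add, map_add, h.sw_inv i (hne a ha) hac hnc hev, map_sum]
        have e2 : ∀ q ∈ K.erase a, sw ρ i a n (sw ρ i q n (e u)) = sw ρ i q n (e u) := by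
          intro q hq
          have hqa : q ≠ a := Finset.ne_of_mem_erase hq
          have hqK : q ∈ K := Finset.mem_of_mem_erase hq
          have e3 := h.sw_sw (κ := κ) i (k := q) (l := a) (m := n) hqa (Ne.symm (hne q hqK))
            (Ne.symm (hne a ha))
          rw [sw_symm i (Ne.symm (hne a ha))] at e3
          have e4 := LinearMap.congr_fun e3 (e u)
          rw [Module.End.mul_apply, Module.End.mul_apply, h3 q hqK a ha hqa u hu] at e4
          exact e4.symm
        rw [Finset.sum_congr rfl e2]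
        abel
      have key2 : ∀ a ∈ K, ∀ b ∈ K, a ≠ b → ∀ u ∈ Cl p c, sw ρ i a b (T (e u)) = T (e u) := by
        intro a ha b hb hab u hu
        have e1 : T (e u) = e u + ∑ q ∈ K, sw ρ i q n (e u) := by
          change (1 + ∑ q ∈ K, sw ρ i q n : OpT κ B) (e u) = _
          rw [LinearMap.add_apply, LinearMap.sum_apply, Module.End.one_apply]
        rw [e1, map_add, h3 a ha b hb hab u hu, map_sum]
        congr 1
        have hsw : ∀ q ∈ K, Equiv.swap a b q ∈ K := by
          intro q hq
          rw [Equiv.swap_apply_def]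
          split_ifs
          · exact hb
          · exact ha
          · exact hq
        refine Finset.sum_nbij' (Equiv.swap a b) (Equiv.swap a b) hsw hsw
          (fun q _ => Equiv.swap_apply_self a b q) (fun q _ => Equiv.swap_apply_self a b q) ?_
        intro q hq
        by_cases hqa : q = a
        · subst hqa
          rw [Equiv.swap_apply_left]
          have e3 := h.sw_sw (κ := κ) i (k := q) (l := n) (m := b) (hne q hq) (Ne.symm hab) (hne b hb)
          have e4 := LinearMap.congr_fun e3 (e u)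
          rw [Module.End.mul_apply, Module.End.mul_apply, h3 q ha b hb hab u hu] at e4
          exact e4
        · by_cases hqb : q = b
          · subst hqb
            rw [Equiv.swap_apply_right]
            have e3 := h.sw_sw (κ := κ) i (k := q) (l := n) (m := a) (hne q hq) hab (hne a ha)
            have e4 := LinearMap.congr_fun e3 (e u)
            rw [Module.End.mul_apply, Module.End.mul_apply, h3 q hb a ha (Ne.symm hab) u hu,
              sw_symm i (Ne.symm hab)] at e4
            exact e4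
          · rw [Equiv.swap_apply_of_ne_of_ne hqa hqb]
            have e3 := h.sw_disj (κ := κ) i (k := a) (l := b) (m := q) (n := n) hqa hqb
              (Ne.symm (hne a ha)) (Ne.symm (hne b hb))
            have e4 := LinearMap.congr_fun e3 (e u)
            rw [Module.End.mul_apply, Module.End.mul_apply, h3 a ha b hb hab u hu] at e4
            exact e4
      intro k hk l hl hkl u hu
      rw [LinearMap.smul_apply, map_smul, Module.End.mul_apply]
      congr 1
      rcases Finset.mem_insert.1 hk with rfl | hk'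
      · rcases Finset.mem_insert.1 hl with rfl | hl'
        · exact absurd rfl hkl
        · rw [sw_symm i hkl]
          exact key1 l hl' u hu
      · rcases Finset.mem_insert.1 hl with rfl | hl'
        · exact key1 k hk' u hu
        · exact key2 k hk' l hl' hkl u hu
    · -- the unit
      intro N hN u hu
      have e0 : e u - u ∈ N := h4 N (fun k hk l hl => hN k (Finset.mem_insert_of_mem hk) l
        (Finset.mem_insert_of_mem hl)) u fun k hk l hl => hu k (Finset.mem_insert_of_mem hk) l
          (Finset.mem_insert_of_mem hl)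
      have e1 : ∀ q ∈ K, sw ρ i q n (e u) - u ∈ N := by
        intro q hq
        have e2 : sw ρ i q n (e u) - u = sw ρ i q n (e u - u) + (sw ρ i q n u - u) := by
          rw [map_sub]
          abel
        rw [e2]
        exact N.add_mem (hN q (Finset.mem_insert_of_mem hq) n (Finset.mem_insert_self n K) (hne q hq)
          _ e0) (hu q (Finset.mem_insert_of_mem hq) n (Finset.mem_insert_self n K) (hne q hq))
      have e3 : (((K.card : ℂ) + 1)⁻¹ • (T * e)) u - u =
          ((K.card : ℂ) + 1)⁻¹ • ((e u - u) + ∑ q ∈ K, (sw ρ i q n (e u) - u)) := by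
        have e4 : T (e u) = e u + ∑ q ∈ K, sw ρ i q n (e u) := by
          change (1 + ∑ q ∈ K, sw ρ i q n : OpT κ B) (e u) = _
          rw [LinearMap.add_apply, LinearMap.sum_apply, Module.End.one_apply]
        rw [LinearMap.smul_apply, Module.End.mul_apply, e4, Finset.sum_sub_distrib,
          Finset.sum_const, ← Nat.cast_smul_eq_nsmul ℂ]
        have e5 : u = ((K.card : ℂ) + 1)⁻¹ • (((K.card : ℂ) + 1) • u) := by
          rw [smul_smul, inv_mul_cancel₀ hr, one_smul]
        nth_rewrite 3 [e5]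
        rw [← smul_sub]
        congr 1
        rw [add_smul, one_smul]
        abel
      rw [e3]
      exact N.smul_mem _ (N.add_mem e0 (N.sum_mem e1))

/-- The moves: a pair of slots can be moved to another pair. -/
theorem exists_move (i : I) (K : Finset κ) (hK : ∀ k ∈ K, S (c k) i) {k₀ l₀ : κ} (hk₀ : k₀ ∈ K)
    (hl₀ : l₀ ∈ K) (hkl₀ : k₀ ≠ l₀) {k l : κ} (hk : k ∈ K) (hl : l ∈ K) (hkl : k ≠ l) :
    ∃ π π' : OpT κ B, Ok ρ p π ∧ (∀ i', i ≠ i' → Fre ρ i' π) ∧
      (∀ N, Sta ρ i K N → ∀ v ∈ N, π' v ∈ N) ∧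
      (∀ v ∈ Cl p c, π' (π v) = v) ∧ ∀ v ∈ Cl p c, π' (sw ρ i k₀ l₀ (π v)) = sw ρ i k l v := by
  -- the property of the pair
  let P : κ → κ → Prop := fun k l => ∃ π π' : OpT κ B, Ok ρ p π ∧ (∀ i', i ≠ i' → Fre ρ i' π) ∧
      (∀ N, Sta ρ i K N → ∀ v ∈ N, π' v ∈ N) ∧
      (∀ v ∈ Cl p c, π' (π v) = v) ∧ ∀ v ∈ Cl p c, π' (sw ρ i k₀ l₀ (π v)) = sw ρ i k l v
  have hP0 : P k₀ l₀ := ⟨1, 1, Ok.one, fun _ _ => Fre.one _,
    fun _ _ v hv => hv, fun _ _ => rfl, fun _ _ => rfl⟩
  have hPs : ∀ k l, k ≠ l → P k l → P l k := by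
    rintro k l hkl ⟨π, π', h1, h2, h4, h5, h6⟩
    exact ⟨π, π', h1, h2, h4, h5, fun v hv => (h6 v hv).trans (by rw [sw_symm i hkl])⟩
  have hPm : ∀ k l m, k ∈ K → l ∈ K → m ∈ K → k ≠ l → m ≠ k → m ≠ l → P k l → P m l := by
    rintro k l m hk hl hm hkl hmk hml ⟨π, π', h1, h2, h4, h5, h6⟩
    refine ⟨π * sw ρ i k m, sw ρ i k m * π', h1.mul (h.sw_ok i hmk.symm),
      fun i' hi => (h2 i' hi).mul (h.sw_fre hi _ _),
      fun N hN v hv => hN k hk m hm hmk.symm _ (h4 N hN v hv), fun v hv => ?_, fun v hv => ?_⟩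
    · rw [Module.End.mul_apply, Module.End.mul_apply, h5 _ ((h.sw_ok i hmk.symm).mem hv),
        h.sw_inv i hmk.symm (hK k hk) (hK m hm) hv]
    · rw [Module.End.mul_apply, Module.End.mul_apply, h6 _ ((h.sw_ok i hmk.symm).mem hv)]
      have e3 := h.sw_sw (κ := κ) i (k := k) (l := l) (m := m) hkl hmk hml
      have e4 := LinearMap.congr_fun e3 (sw ρ i k m v)
      rw [Module.End.mul_apply, Module.End.mul_apply,
        h.sw_inv i hmk.symm (hK k hk) (hK m hm) hv] at e4
      exact e4
  by_cases h1 : l = l₀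
  · subst h1
    by_cases h2 : k = k₀
    · subst h2
      exact hP0
    · exact hPm k₀ l k hk₀ hl hk hkl₀ h2 hkl hP0
  · by_cases h2 : l = k₀
    · subst h2
      by_cases h3 : k = l₀
      · subst h3
        exact hPs _ _ hkl₀ hP0
      · exact hPm l₀ l k hl₀ hl hk (Ne.symm hkl₀) h3 hkl (hPs _ _ hkl₀ hP0)
    · have h3 : P k₀ l := hPs _ _ h2 (hPm l₀ k₀ l hl₀ hk₀ hl (Ne.symm hkl₀) h1 h2
        (hPs _ _ hkl₀ hP0))
      by_cases h4 : k = k₀
      · subst h4
        exact h3
      · exact hPm k₀ l k hk₀ hl hk (Ne.symm h2) h4 hkl h3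

/-- Symmetric tensors which are invariant under the `i`-th factor vanish. -/
theorem sym_zero (i : I) {k₀ : κ} (hk₀ : S (c k₀) i) {v : Tn κ B} (hv : v ∈ Cl p c)
    (hs : ∀ k l, S (c k) i → S (c l) i → k ≠ l → sw ρ i k l v = v)
    (h0 : ∀ X, Matrix.trace X = 0 → (ac (ρ i X) : OpT κ B) v = 0) : v = 0 := by
  classical
  let K : Finset κ := Finset.univ.filter fun k => S (c k) i
  have hKm : ∀ k, k ∈ K ↔ S (c k) i := fun k => by
    rw [Finset.mem_filter]
    exact ⟨fun h => h.2, fun h => ⟨Finset.mem_univ k, h⟩⟩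
  let m : ℂ := (K.card : ℂ)
  have hac1 : (ac (ρ i 1) : OpT κ B) v = m • v := by
    unfold ac
    rw [LinearMap.sum_apply, ← Finset.sum_filter_add_sum_filter_not Finset.univ fun k => S (c k) i]
    have e1 : ∑ k ∈ Finset.univ.filter (fun k => S (c k) i), (sl (ρ i 1) k : OpT κ B) v = m • v := by
      rw [Finset.sum_congr rfl fun k hk => h.rs_one ((hKm k).1 hk) hv, Finset.sum_const,
        ← Nat.cast_smul_eq_nsmul ℂ]
    have e2 : ∑ k ∈ Finset.univ.filter (fun k => ¬ S (c k) i), (sl (ρ i 1) k : OpT κ B) v = 0 :=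
      Finset.sum_eq_zero fun k hk => h.rs_zero (Finset.mem_filter.1 hk).2 hv 1
    rw [e1, e2, add_zero]
  have hmu : ∀ a b : Fin 2, (ac (ρ i (mu a b)) : OpT κ B) v = if a = b then (m / 2) • v else 0 := by
    intro a b
    by_cases hab : a = b
    · subst hab
      rw [if_pos rfl]
      have e1 : mu a a = (mu a a - (2 : ℂ)⁻¹ • 1) + (2 : ℂ)⁻¹ • (1 : Matrix (Fin 2) (Fin 2) ℂ) := by
        abel
      have e2 : Matrix.trace (mu a a - (2 : ℂ)⁻¹ • (1 : Matrix (Fin 2) (Fin 2) ℂ)) = 0 := by
        rw [Matrix.trace_sub, Matrix.trace_smul, Matrix.trace_one, Matrix.trace_single_eq_same]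
        simp
      rw [e1, ← acL_apply, map_add, map_smul, map_add, map_smul, acL_apply, acL_apply,
        LinearMap.add_apply, LinearMap.smul_apply, h0 _ e2, hac1, zero_add, smul_smul]
      congr 1
      ring
    · rw [if_neg hab]
      exact h0 _ (Matrix.trace_single_eq_of_ne _ _ _ hab)
  -- the Casimir operator, first computation
  have c1 : ∑ a, ∑ b, (ac (ρ i (mu a b)) : OpT κ B) ((ac (ρ i (mu b a)) : OpT κ B) v) =
      (m * m / 2) • v := by
    have e1 : ∀ a b : Fin 2, (ac (ρ i (mu a b)) : OpT κ B) ((ac (ρ i (mu b a)) : OpT κ B) v) =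
        if a = b then (m / 2 * (m / 2)) • v else 0 := by
      intro a b
      rw [hmu b a]
      by_cases hab : a = b
      · subst hab
        rw [if_pos rfl, if_pos rfl, map_smul, hmu, if_pos rfl, smul_smul]
      · rw [if_neg (Ne.symm hab), if_neg hab, map_zero]
    simp only [e1, Fin.sum_univ_two]
    simp only [if_true, zero_ne_one, one_ne_zero, if_false, add_zero, zero_add]
    rw [← add_smul]
    congr 1
    ring
  -- second computation
  have c2 : ∑ a, ∑ b, (ac (ρ i (mu a b)) : OpT κ B) ((ac (ρ i (mu b a)) : OpT κ B) v) =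
      (m * m + m) • v := by
    have e1 : ∀ a b : Fin 2, (ac (ρ i (mu a b)) : OpT κ B) ((ac (ρ i (mu b a)) : OpT κ B) v) =
        ∑ k, ∑ l, (rs ρ i (mu a b) k * rs ρ i (mu b a) l : OpT κ B) v := by
      intro a b
      rw [← Module.End.mul_apply]
      unfold ac
      rw [Finset.sum_mul_sum, LinearMap.sum_apply]
      refine Finset.sum_congr rfl fun k _ => ?_
      rw [LinearMap.sum_apply]
    have e2 : ∑ a, ∑ b, (ac (ρ i (mu a b)) : OpT κ B) ((ac (ρ i (mu b a)) : OpT κ B) v) =
        ∑ k, ∑ l, ∑ a : Fin 2, ∑ b : Fin 2, (rs ρ i (mu a b) k * rs ρ i (mu b a) l : OpT κ B) v := by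
      simp only [e1]
      have e3 : ∀ a : Fin 2, ∑ b : Fin 2, ∑ k : κ, ∑ l : κ,
          (rs ρ i (mu a b) k * rs ρ i (mu b a) l : OpT κ B) v =
          ∑ k : κ, ∑ l : κ, ∑ b : Fin 2, (rs ρ i (mu a b) k * rs ρ i (mu b a) l : OpT κ B) v := by
        intro a
        rw [Finset.sum_comm]
        exact Finset.sum_congr rfl fun k _ => Finset.sum_comm
      rw [Finset.sum_congr rfl fun a _ => e3 a, Finset.sum_comm]
      exact Finset.sum_congr rfl fun k _ => Finset.sum_comm
    have e4 : ∀ k l : κ, ∑ a : Fin 2, ∑ b : Fin 2, (rs ρ i (mu a b) k * rs ρ i (mu b a) l : OpT κ B) v =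
        if k ∈ K ∧ l ∈ K then (if k = l then (2 : ℂ) • v else v) else 0 := by
      intro k l
      by_cases hl : l ∈ K
      · by_cases hk : k ∈ K
        · rw [if_pos ⟨hk, hl⟩]
          by_cases hkl : k = l
          · subst hkl
            rw [if_pos rfl]
            have e5 : ∀ a b : Fin 2, (rs ρ i (mu a b) k * rs ρ i (mu b a) k : OpT κ B) v =
                rs ρ i (mu b b) k v := by
              intro a b
              rw [h.rs_mul, mu_mul, if_pos rfl]
            simp only [e5]
            have e6 : ∑ b : Fin 2, rs ρ i (mu b b) k v = v := by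
              rw [← LinearMap.sum_apply]
              have e7 : ∑ b : Fin 2, (rs ρ i (mu b b) k : OpT κ B) = rs ρ i 1 k := by
                rw [one_eq_mu]
                unfold rs
                rw [map_sum, ← slL_apply, map_sum]
                rfl
              rw [e7]
              exact h.rs_one ((hKm k).1 hk) hv
            rw [e6, Finset.sum_const, Finset.card_univ, Fintype.card_fin,
              ← Nat.cast_smul_eq_nsmul ℂ]
            norm_num
          · rw [if_neg hkl]
            have e5 := hs k l ((hKm k).1 hk) ((hKm l).1 hl) hkl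
            unfold sw at e5
            simp only [LinearMap.sum_apply] at e5
            exact e5
        · rw [if_neg fun h => hk h.1]
          refine Finset.sum_eq_zero fun a _ => Finset.sum_eq_zero fun b _ => ?_
          have hkl : k ≠ l := fun h0 => hk (h0 ▸ hl)
          rw [rs_comm_ne i i _ _ hkl, Module.End.mul_apply,
            h.rs_zero (fun h0 => hk ((hKm k).2 h0)) hv, map_zero]
      · rw [if_neg fun h => hl h.2]
        refine Finset.sum_eq_zero fun a _ => Finset.sum_eq_zero fun b _ => ?_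
        rw [Module.End.mul_apply, h.rs_zero (fun h0 => hl ((hKm l).2 h0)) hv, map_zero]
    rw [e2]
    simp only [e4]
    have e8 : ∀ k : κ, ∑ l : κ, (if k ∈ K ∧ l ∈ K then (if k = l then (2 : ℂ) • v else v) else 0) =
        if k ∈ K then (m + 1) • v else 0 := by
      intro k
      by_cases hk : k ∈ K
      · rw [if_pos hk]
        have e9 : ∀ l : κ, (if k ∈ K ∧ l ∈ K then (if k = l then (2 : ℂ) • v else v) else 0) =
            (if l ∈ K then v else 0) + if k = l then v else 0 := by
          intro l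
          by_cases hl : l ∈ K
          · rw [if_pos ⟨hk, hl⟩, if_pos hl]
            by_cases hkl : k = l
            · rw [if_pos hkl, if_pos hkl, two_smul]
            · rw [if_neg hkl, if_neg hkl, add_zero]
          · have hkl : k ≠ l := fun h0 => hl (h0 ▸ hk)
            rw [if_neg fun h => hl h.2, if_neg hl, if_neg hkl, add_zero]
        rw [Finset.sum_congr rfl fun l _ => e9 l, Finset.sum_add_distrib, Finset.sum_ite_eq,
          if_pos (Finset.mem_univ k), Finset.sum_ite_mem, Finset.univ_inter, Finset.sum_const,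
          ← Nat.cast_smul_eq_nsmul ℂ, add_smul, one_smul]
      · rw [if_neg hk]
        exact Finset.sum_eq_zero fun l _ => if_neg fun h => hk h.1
    rw [Finset.sum_congr rfl fun k _ => e8 k, Finset.sum_ite_mem, Finset.univ_inter,
      Finset.sum_const, ← Nat.cast_smul_eq_nsmul ℂ, smul_smul]
    congr 1
    change m * (m + 1) = _
    ring
  have c3 : (m * m / 2 + m) • v = 0 := by
    have e1 : (m * m / 2 + m) • v = (m * m + m) • v - (m * m / 2) • v := by
      rw [← sub_smul]
      congr 1
      ring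
    rw [e1, ← c1, ← c2, sub_self]
  have hm : m * m / 2 + m ≠ 0 := by
    have hpos : 0 < K.card := Finset.card_pos.2 ⟨k₀, (hKm k₀).2 hk₀⟩
    have e1 : m * m / 2 + m = ((((K.card : ℝ) * K.card / 2 + K.card : ℝ)) : ℂ) := by
      push_cast
      rfl
    rw [e1]
    have e2 : (0 : ℝ) < (K.card : ℝ) := by exact_mod_cast hpos
    have e3 : (0 : ℝ) < (K.card : ℝ) * K.card / 2 + K.card := by positivity
    exact_mod_cast e3.ne'
  exact (smul_eq_zero.1 c3).resolve_left hm

end PH

end

end Pool.Agent.H841.GP
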